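import Pool.Agent.FWP39.Defs

open Filter MeasureTheory Topology

noncomputable section

namespace Pool.Agent.FWP39

/-- the shift `σ^n` -/
def sh (n : ℕ) (a : ℕ → Bool) : ℕ → Bool := fun i => a (n + i)

/-- complex values: `∑ a_i z^{i+1}` -/
def cv (z : ℂ) (a : ℕ → Bool) : ℂ := ∑' i, if a i then z ^ (i + 1) else 0

theorem summable_digits {z : ℂ} (hz : ‖z‖ < 1) (a : ℕ → Bool) :
    Summable fun i => (if a i then z ^ (i + 1) else 0 : ℂ) := by
  have h1 : Summable fun i : ℕ => ‖z‖ ^ (i + 1) :=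
    (summable_nat_add_iff 1).2 (summable_geometric_of_lt_one (norm_nonneg _) hz)
  refine Summable.of_norm_bounded h1 fun i => ?_
  split_ifs
  · rw [norm_pow]
  · rw [norm_zero]; positivity

theorem summable_real {z : ℝ} (h0 : 0 ≤ z) (hz : z < 1) (a : ℕ → Bool) :
    Summable fun i => (if a i then z ^ (i + 1) else 0 : ℝ) := by
  have h1 : Summable fun i : ℕ => z ^ (i + 1) :=
    (summable_nat_add_iff 1).2 (summable_geometric_of_lt_one h0 hz)
  refine Summable.of_nonneg_of_le (fun i => ?_) (fun i => ?_) h1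
  · split_ifs <;> positivity
  · split_ifs
    · exact le_rfl
    · positivity

/-- decomposition at position `n` -/
theorem cv_split {z : ℂ} (hz : ‖z‖ < 1) (a : ℕ → Bool) (n : ℕ) :
    cv z a = (∑ i ∈ Finset.range n, if a i then z ^ (i + 1) else 0) + z ^ n * cv z (sh n a) := by
  unfold cv
  rw [← (summable_digits hz a).sum_add_tsum_nat_add n, ← tsum_mul_left]
  congr 1
  refine tsum_congr fun i => ?_
  unfold sh
  rw [add_comm n i]
  split_ifs
  · rw [← pow_add]; congr 1; ring
  · rw [mul_zero]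

theorem val_split {β : ℝ} (h1 : 1 < β) (a : ℕ → Bool) (n : ℕ) :
    val β a = (∑ i ∈ Finset.range n, if a i then (β⁻¹) ^ (i + 1) else 0) +
      (β⁻¹) ^ n * val β (sh n a) := by
  have hb : β⁻¹ < 1 := inv_lt_one_of_one_lt₀ h1
  have hb0 : 0 ≤ β⁻¹ := by positivity
  unfold val
  rw [← (summable_real hb0 hb a).sum_add_tsum_nat_add n, ← tsum_mul_left]
  congr 1
  refine tsum_congr fun i => ?_
  unfold sh
  rw [add_comm n i]
  split_ifs
  · rw [← pow_add]; congr 1; ring
  · rw [mul_zero]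

theorem val_ofReal (β : ℝ) (a : ℕ → Bool) : ((val β a : ℝ) : ℂ) = cv ((β : ℂ)⁻¹) a := by
  unfold val cv
  rw [Complex.ofReal_tsum]
  refine tsum_congr fun i => ?_
  split_ifs <;> push_cast <;> rfl

theorem tsum_pow_succ {z : ℝ} (h0 : 0 ≤ z) (hz : z < 1) :
    ∑' i : ℕ, z ^ (i + 1) = z / (1 - z) := by
  simp only [pow_succ]
  rw [tsum_mul_right, tsum_geometric_of_lt_one h0 hz]
  field_simp

/-- `R = 1/(β-1)` -/
theorem R_eq {β : ℝ} (h1 : 1 < β) : β⁻¹ / (1 - β⁻¹) = 1 / (β - 1) := by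
  have : β ≠ 0 := by positivity
  have : β - 1 ≠ 0 := by linarith
  field_simp

theorem val_nonneg {β : ℝ} (h1 : 1 < β) (a : ℕ → Bool) : 0 ≤ val β a := by
  refine tsum_nonneg fun i => ?_
  split_ifs <;> positivity

theorem val_le {β : ℝ} (h1 : 1 < β) (a : ℕ → Bool) : val β a ≤ 1 / (β - 1) := by
  have hb : β⁻¹ < 1 := inv_lt_one_of_one_lt₀ h1
  have hb0 : 0 ≤ β⁻¹ := by positivity
  rw [← R_eq h1, ← tsum_pow_succ hb0 hb]
  refine (summable_real hb0 hb a).tsum_le_tsum (fun i => ?_)
    ((summable_nat_add_iff 1).2 (summable_geometric_of_lt_one hb0 hb))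
  split_ifs
  · exact le_rfl
  · positivity

theorem norm_cv_le {z : ℂ} (hz : ‖z‖ < 1) (a : ℕ → Bool) : ‖cv z a‖ ≤ ‖z‖ / (1 - ‖z‖) := by
  rw [← tsum_pow_succ (norm_nonneg z) hz]
  refine tsum_of_norm_bounded ((summable_nat_add_iff 1).2
    (summable_geometric_of_lt_one (norm_nonneg _) hz)).hasSum fun i => ?_
  split_ifs
  · rw [norm_pow]
  · rw [norm_zero]; positivity

/-- `a` and `b` agree on the first `n` digits -/
def Agree (n : ℕ) (a b : ℕ → Bool) : Prop := ∀ i < n, a i = b i

theorem cv_agree {z : ℂ} (hz : ‖z‖ < 1) {n : ℕ} {a b : ℕ → Bool} (h : Agree n a b) :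
    ‖cv z a - cv z b‖ ≤ ‖z‖ ^ n * (2 * (‖z‖ / (1 - ‖z‖))) := by
  rw [cv_split hz a n, cv_split hz b n]
  have e : ∑ i ∈ Finset.range n, (if a i then z ^ (i + 1) else 0) =
      ∑ i ∈ Finset.range n, (if b i then z ^ (i + 1) else 0) :=
    Finset.sum_congr rfl fun i hi => by rw [h i (Finset.mem_range.1 hi)]
  rw [e, add_sub_add_left_eq_sub, ← mul_sub, norm_mul, norm_pow]
  refine mul_le_mul_of_nonneg_left ?_ (by positivity)
  refine (norm_sub_le _ _).trans ?_
  have := norm_cv_le hz (sh n a)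
  have := norm_cv_le hz (sh n b)
  linarith

theorem val_agree {β : ℝ} (h1 : 1 < β) {n : ℕ} {a b : ℕ → Bool} (h : Agree n a b) :
    |val β a - val β b| ≤ (β⁻¹) ^ n * (1 / (β - 1)) := by
  rw [val_split h1 a n, val_split h1 b n]
  have e : ∑ i ∈ Finset.range n, (if a i then (β⁻¹) ^ (i + 1) else 0) =
      ∑ i ∈ Finset.range n, (if b i then (β⁻¹) ^ (i + 1) else 0) :=
    Finset.sum_congr rfl fun i hi => by rw [h i (Finset.mem_range.1 hi)]
  rw [e, add_sub_add_left_eq_sub, ← mul_sub, abs_mul, abs_of_nonneg (by positivity :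
    0 ≤ (β⁻¹) ^ n)]
  refine mul_le_mul_of_nonneg_left ?_ (by positivity)
  rw [abs_le]
  have a1 := val_le h1 (sh n a)
  have a2 := val_le h1 (sh n b)
  have a3 := val_nonneg h1 (sh n a)
  have a4 := val_nonneg h1 (sh n b)
  constructor <;> linarith


/-- expansions generated by a map `S x = β x - d(x)` -/
theorem val_orbit {β : ℝ} (h1 : 1 < β) (S : ℝ → ℝ) (d : ℝ → Bool)
    (hS : ∀ x, S x = β * x - (if d x then 1 else 0))
    (hR : ∀ x, 0 ≤ x → x ≤ 1 / (β - 1) → 0 ≤ S x ∧ S x ≤ 1 / (β - 1)) {x : ℝ} (hx0 : 0 ≤ x)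
    (hxR : x ≤ 1 / (β - 1)) : val β (fun n => d (S^[n] x)) = x := by
  have hb : β⁻¹ < 1 := inv_lt_one_of_one_lt₀ h1
  have hb0 : 0 ≤ β⁻¹ := by positivity
  have hβ : β ≠ 0 := by positivity
  have horb : ∀ n, 0 ≤ S^[n] x ∧ S^[n] x ≤ 1 / (β - 1) := by
    intro n
    induction n with
    | zero => exact ⟨hx0, hxR⟩
    | succ n ih =>
      rw [Function.iterate_succ_apply']
      exact hR _ ih.1 ih.2
  have hfin : ∀ n, x = (∑ i ∈ Finset.range n, if d (S^[i] x) then (β⁻¹) ^ (i + 1) else 0) +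
      (β⁻¹) ^ n * S^[n] x := by
    intro n
    induction n with
    | zero => simp
    | succ n ih =>
      rw [Finset.sum_range_succ, Function.iterate_succ_apply', hS (S^[n] x)]
      conv_lhs => rw [ih]
      rw [add_assoc]
      congr 1
      rw [pow_succ]
      split_ifs
      · field_simp; ring
      · field_simp; ring
  have h2 := (summable_real hb0 hb (fun n => d (S^[n] x))).hasSum.tendsto_sum_nat
  have h3 : Tendsto (fun n => x - (β⁻¹) ^ n * S^[n] x) atTop (𝓝 (x - 0)) := by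
    refine tendsto_const_nhds.sub ?_
    have h4 : Tendsto (fun n : ℕ => (β⁻¹) ^ n * (1 / (β - 1))) atTop (𝓝 (0 * (1 / (β - 1)))) :=
      (tendsto_pow_atTop_nhds_zero_of_lt_one hb0 hb).mul_const _
    rw [zero_mul] at h4
    refine squeeze_zero (fun n => ?_) (fun n => ?_) h4
    · exact mul_nonneg (by positivity) (horb n).1
    · exact mul_le_mul_of_nonneg_left (horb n).2 (by positivity)
  rw [sub_zero] at h3
  refine tendsto_nhds_unique h2 ?_
  refine h3.congr fun n => ?_
  have := hfin n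
  linarith

theorem T_mem {β : ℝ} (h1 : 1 < β) (h2 : β < 2) {x : ℝ} (h0 : 0 ≤ x) (hR : x ≤ 1 / (β - 1)) :
    0 ≤ T β x ∧ T β x ≤ 1 / (β - 1) := by
  have hb : 0 < β := by linarith
  have hb1 : 0 < β - 1 := by linarith
  have hR1 : 1 < 1 / (β - 1) := by rw [lt_div_iff₀ hb1]; linarith
  unfold T
  split_ifs with h
  · rw [lt_div_iff₀ hb] at h
    constructor
    · positivity
    · nlinarith
  · rw [not_lt, div_le_iff₀ hb] at h
    rw [le_div_iff₀ hb1] at hR
    constructor
    · linarith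
    · rw [le_div_iff₀ hb1]; nlinarith

/-- quasi-greedy map -/
def Tq (β x : ℝ) : ℝ := if x ≤ 1 / β then β * x else β * x - 1

open scoped Classical in
/-- quasi-greedy expansion -/
def qgreedy (β x : ℝ) : ℕ → Bool := fun n => decide (1 / β < (Tq β)^[n] x)

theorem Tq_mem {β : ℝ} (h1 : 1 < β) (h2 : β < 2) {x : ℝ} (h0 : 0 ≤ x) (hR : x ≤ 1 / (β - 1)) :
    0 ≤ Tq β x ∧ Tq β x ≤ 1 / (β - 1) := by
  have hb : 0 < β := by linarith
  have hb1 : 0 < β - 1 := by linarith
  have hR1 : 1 < 1 / (β - 1) := by rw [lt_div_iff₀ hb1]; linarith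
  unfold Tq
  split_ifs with h
  · rw [le_div_iff₀ hb] at h
    constructor
    · positivity
    · nlinarith
  · rw [not_le, div_lt_iff₀ hb] at h
    rw [le_div_iff₀ hb1] at hR
    constructor
    · linarith
    · rw [le_div_iff₀ hb1]; nlinarith

theorem Tq_mem' {β : ℝ} (h1 : 1 < β) (h2 : β < 2) {x : ℝ} (h0 : 0 < x) (hR : x < 1 / (β - 1)) :
    0 < Tq β x ∧ Tq β x < 1 / (β - 1) := by
  have hb : 0 < β := by linarith
  have hb1 : 0 < β - 1 := by linarith
  have hR1 : 1 < 1 / (β - 1) := by rw [lt_div_iff₀ hb1]; linarith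
  unfold Tq
  split_ifs with h
  · rw [le_div_iff₀ hb] at h
    constructor
    · positivity
    · nlinarith
  · rw [not_le, div_lt_iff₀ hb] at h
    rw [lt_div_iff₀ hb1] at hR
    constructor
    · linarith
    · rw [lt_div_iff₀ hb1]; nlinarith

theorem val_greedy {β : ℝ} (h1 : 1 < β) (h2 : β < 2) {x : ℝ} (h0 : 0 ≤ x)
    (hR : x ≤ 1 / (β - 1)) : val β (greedy β x) = x := by
  classical
  refine val_orbit h1 (T β) (fun x => decide (1 / β ≤ x)) (fun x => ?_)
    (fun x h0 hR => T_mem h1 h2 h0 hR) h0 hR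
  unfold T
  by_cases h : x < 1 / β
  · rw [if_pos h, if_neg (by simpa using h)]; ring
  · rw [if_neg h, if_pos (by simpa using h)]

theorem val_qgreedy {β : ℝ} (h1 : 1 < β) (h2 : β < 2) {x : ℝ} (h0 : 0 ≤ x)
    (hR : x ≤ 1 / (β - 1)) : val β (qgreedy β x) = x := by
  classical
  refine val_orbit h1 (Tq β) (fun x => decide (1 / β < x)) (fun x => ?_)
    (fun x h0 hR => Tq_mem h1 h2 h0 hR) h0 hR
  unfold Tq
  by_cases h : x ≤ 1 / β
  · rw [if_pos h, if_neg (by simpa using h)]; ring
  · rw [if_neg h, if_pos (by simpa using h)]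

theorem sh_greedy (β x : ℝ) (n : ℕ) : sh n (greedy β x) = greedy β ((T β)^[n] x) := by
  funext i
  unfold sh greedy
  rw [← Function.iterate_add_apply, add_comm n i]

theorem sh_qgreedy (β x : ℝ) (n : ℕ) : sh n (qgreedy β x) = qgreedy β ((Tq β)^[n] x) := by
  funext i
  unfold sh qgreedy
  rw [← Function.iterate_add_apply, add_comm n i]

theorem iter_T_mem {β : ℝ} (h1 : 1 < β) (h2 : β < 2) {x : ℝ} (h0 : 0 ≤ x)
    (hR : x ≤ 1 / (β - 1)) (n : ℕ) : 0 ≤ (T β)^[n] x ∧ (T β)^[n] x ≤ 1 / (β - 1) := by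
  induction n with
  | zero => exact ⟨h0, hR⟩
  | succ n ih => rw [Function.iterate_succ_apply']; exact T_mem h1 h2 ih.1 ih.2

theorem iter_Tq_mem {β : ℝ} (h1 : 1 < β) (h2 : β < 2) {x : ℝ} (h0 : 0 < x)
    (hR : x < 1 / (β - 1)) (n : ℕ) : 0 < (Tq β)^[n] x ∧ (Tq β)^[n] x < 1 / (β - 1) := by
  induction n with
  | zero => exact ⟨h0, hR⟩
  | succ n ih => rw [Function.iterate_succ_apply']; exact Tq_mem' h1 h2 ih.1 ih.2

/-- right continuity of the greedy digits -/
theorem greedy_right {β : ℝ} (h1 : 1 < β) (n : ℕ) (x : ℝ) :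
    ∃ δ > 0, ∀ y, x ≤ y → y < x + δ → Agree n (greedy β y) (greedy β x) := by
  have hb : 0 < β := by linarith
  induction n generalizing x with
  | zero => exact ⟨1, one_pos, fun y _ _ i hi => absurd hi (Nat.not_lt_zero _)⟩
  | succ n ih =>
    obtain ⟨δ, hδ, H⟩ := ih (T β x)
    have key : ∃ δ' > 0, ∀ y, x ≤ y → y < x + δ' →
        (1 / β ≤ y ↔ 1 / β ≤ x) ∧ T β x ≤ T β y ∧ T β y < T β x + δ := by
      by_cases hx : x < 1 / β
      · refine ⟨min (1 / β - x) (δ / β), lt_min (by linarith) (by positivity), fun y h3 h4 => ?_⟩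
        have h5 : y < 1 / β := by
          have := min_le_left (1 / β - x) (δ / β); linarith
        have h6 : y < x + δ / β := by
          have := min_le_right (1 / β - x) (δ / β); linarith
        refine ⟨⟨fun h => absurd h (not_le.2 h5), fun h => absurd h (not_le.2 hx)⟩, ?_, ?_⟩
        · unfold T; rw [if_pos hx, if_pos h5]
          exact mul_le_mul_of_nonneg_left h3 hb.le
        · unfold T; rw [if_pos hx, if_pos h5]
          have := mul_lt_mul_of_pos_left h6 hb
          rw [mul_add, mul_div_cancel₀ _ hb.ne'] at this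
          exact this
      · refine ⟨δ / β, by positivity, fun y h3 h4 => ?_⟩
        have h5 : ¬ y < 1 / β := by rw [not_lt] at hx ⊢; linarith
        refine ⟨⟨fun _ => not_lt.1 hx, fun _ => not_lt.1 h5⟩, ?_, ?_⟩
        · unfold T; rw [if_neg hx, if_neg h5]
          have := mul_le_mul_of_nonneg_left h3 hb.le
          linarith
        · unfold T; rw [if_neg hx, if_neg h5]
          have := mul_lt_mul_of_pos_left h4 hb
          rw [mul_add, mul_div_cancel₀ _ hb.ne'] at this
          linarith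
    obtain ⟨δ', hδ', K⟩ := key
    refine ⟨δ', hδ', fun y h3 h4 i hi => ?_⟩
    obtain ⟨k1, k2, k3⟩ := K y h3 h4
    rcases i with _ | i
    · unfold greedy
      simp only [Function.iterate_zero, id]
      exact decide_eq_decide.2 k1
    · have := H (T β y) k2 k3 i (by omega)
      unfold greedy at this ⊢
      simp only [Function.iterate_succ_apply]
      exact this

/-- from the left the greedy digits converge to the quasi-greedy ones -/
theorem greedy_left {β : ℝ} (h1 : 1 < β) (n : ℕ) (x : ℝ) :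
    ∃ δ > 0, ∀ y, y < x → x - δ < y → Agree n (greedy β y) (qgreedy β x) := by
  have hb : 0 < β := by linarith
  induction n generalizing x with
  | zero => exact ⟨1, one_pos, fun y _ _ i hi => absurd hi (Nat.not_lt_zero _)⟩
  | succ n ih =>
    obtain ⟨δ, hδ, H⟩ := ih (Tq β x)
    have key : ∃ δ' > 0, ∀ y, y < x → x - δ' < y →
        (1 / β ≤ y ↔ 1 / β < x) ∧ T β y < Tq β x ∧ Tq β x - δ < T β y := by
      by_cases hx : x ≤ 1 / β
      · refine ⟨δ / β, by positivity, fun y h3 h4 => ?_⟩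
        have h5 : y < 1 / β := by linarith
        refine ⟨⟨fun h => absurd h (not_le.2 h5), fun h => absurd h (not_lt.2 hx)⟩, ?_, ?_⟩
        · unfold T Tq; rw [if_pos hx, if_pos h5]
          exact mul_lt_mul_of_pos_left h3 hb
        · unfold T Tq; rw [if_pos hx, if_pos h5]
          have := mul_lt_mul_of_pos_left h4 hb
          rw [mul_sub, mul_div_cancel₀ _ hb.ne'] at this
          linarith
      · refine ⟨min (x - 1 / β) (δ / β), lt_min (by linarith) (by positivity), fun y h3 h4 => ?_⟩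
        have h5 : ¬ y < 1 / β := by
          have := min_le_left (x - 1 / β) (δ / β); linarith
        have h6 : x - δ / β < y := by
          have := min_le_right (x - 1 / β) (δ / β); linarith
        refine ⟨⟨fun _ => not_le.1 hx, fun _ => not_lt.1 h5⟩, ?_, ?_⟩
        · unfold T Tq; rw [if_neg hx, if_neg h5]
          have := mul_lt_mul_of_pos_left h3 hb
          linarith
        · unfold T Tq; rw [if_neg hx, if_neg h5]
          have := mul_lt_mul_of_pos_left h6 hb
          rw [mul_sub, mul_div_cancel₀ _ hb.ne'] at this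
          linarith
    obtain ⟨δ', hδ', K⟩ := key
    refine ⟨δ', hδ', fun y h3 h4 i hi => ?_⟩
    obtain ⟨k1, k2, k3⟩ := K y h3 h4
    rcases i with _ | i
    · unfold greedy qgreedy
      simp only [Function.iterate_zero, id]
      exact decide_eq_decide.2 k1
    · have := H (T β y) k2 k3 i (by omega)
      unfold greedy qgreedy at this ⊢
      simp only [Function.iterate_succ_apply]
      exact this

end Pool.Agent.FWP39
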