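import Pool.Agent.FWP39.Basic

open Filter MeasureTheory Topology

noncomputable section

namespace Pool.Agent.FWP39

/-! ### The polynomial identities -/

/-- the value of the first `n` digits at `x` -/
def pre {K : Type*} [Field K] (x : K) (a : ℕ → Bool) (n : ℕ) : K :=
  ∑ i ∈ Finset.range n, if a i then (x⁻¹) ^ (i + 1) else 0

open Polynomial in
/-- the integer polynomial `∑_{i<m} a_i X^{N-1-i}` -/
def ppoly (a : ℕ → Bool) (m N : ℕ) : ℤ[X] :=
  ∑ i ∈ Finset.range m, C (if a i then (1 : ℤ) else 0) * X ^ (N - 1 - i)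

open Polynomial in
theorem aeval_ppoly {K : Type*} [Field K] {x : K} (hx : x ≠ 0) (a : ℕ → Bool) {m N : ℕ}
    (h : m ≤ N) : aeval x (ppoly a m N) = x ^ N * pre x a m := by
  unfold ppoly pre
  rw [map_sum, Finset.mul_sum]
  refine Finset.sum_congr rfl fun i hi => ?_
  have hi' := Finset.mem_range.1 hi
  have e : x ^ N = x ^ (N - 1 - i) * x ^ (i + 1) := by rw [← pow_add]; congr 1; omega
  rw [map_mul, map_pow, aeval_X, aeval_C]
  split_ifs
  · rw [map_one, one_mul, e, mul_assoc, ← mul_pow, mul_inv_cancel₀ hx, one_pow, mul_one]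
  · rw [map_zero, zero_mul, mul_zero]

/-- `a` returns: the (scaled) difference of prefixes of `a` and of its normalisation takes some
value infinitely often -/
def Returns (β : ℝ) (a : ℕ → Bool) : Prop :=
  ∃ k l : ℕ, ∃ d : ℝ, ∃ᶠ n in atTop,
    β ^ n * (pre β a (n + k) - pre β (normalise β a) (n + l)) = d

open Polynomial in
/-- transfer to a conjugate -/
theorem transfer {β : ℝ} {γ : ℂ} (hγ : aeval γ (minpoly ℚ β) = 0) {p : ℤ[X]}
    (hp : aeval β p = 0) : aeval γ p = 0 := by
  have h1 : aeval β (p.map (Int.castRingHom ℚ)) = 0 := by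
    rw [← hp]
    exact aeval_map_algebraMap (A := ℚ) β p
  obtain ⟨q, hq⟩ := minpoly.dvd ℚ β h1
  have h2 : aeval γ (p.map (Int.castRingHom ℚ)) = 0 := by
    rw [hq, map_mul, hγ, zero_mul]
  rw [← h2]
  exact (aeval_map_algebraMap (A := ℚ) γ p).symm

theorem tendsto_pre {z : ℂ} (hz : ‖z⁻¹‖ < 1) (a : ℕ → Bool) (k : ℕ) :
    Tendsto (fun n => pre z a (n + k)) atTop (𝓝 (cv z⁻¹ a)) :=
  (summable_digits hz a).hasSum.tendsto_sum_nat.comp (tendsto_add_atTop_nat k)

open Polynomial in
theorem cv_normalise {β : ℝ} (h1 : 1 < β) {γ : ℂ} (hγ : aeval γ (minpoly ℚ β) = 0)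
    (hγ1 : 1 < ‖γ‖) {a : ℕ → Bool} (ha : Returns β a) :
    cv γ⁻¹ a = cv γ⁻¹ (normalise β a) := by
  obtain ⟨k, l, d, hd⟩ := ha
  have hβ0 : β ≠ 0 := by positivity
  have hγ0 : γ ≠ 0 := by intro h; rw [h, norm_zero] at hγ1; linarith
  have hz : ‖γ⁻¹‖ < 1 := by rw [norm_inv]; exact inv_lt_one_of_one_lt₀ hγ1
  set b := normalise β a with hb
  obtain ⟨n', hn'⟩ := hd.exists
  set C0 : ℂ := γ ^ (n' + k + l) * (pre γ a (n' + k) - pre γ b (n' + l)) with hC0
  have key : ∀ n, β ^ n * (pre β a (n + k) - pre β b (n + l)) = d →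
      pre γ a (n + k) - pre γ b (n + l) - C0 * (γ⁻¹) ^ (n + k + l) = 0 := by
    intro n hn
    have e1 : ∀ {K : Type} [Field K] {x : K} (_ : x ≠ 0) (n : ℕ),
        aeval x (ppoly a (n + k) (n + k + l) - ppoly b (n + l) (n + k + l)) =
          x ^ (n + k + l) * (pre x a (n + k) - pre x b (n + l)) := by
      intro K _ x hx n
      rw [map_sub, aeval_ppoly hx a (by omega), aeval_ppoly hx b (by omega)]
      ring
    have e2 : aeval β ((ppoly a (n + k) (n + k + l) - ppoly b (n + l) (n + k + l)) -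
        (ppoly a (n' + k) (n' + k + l) - ppoly b (n' + l) (n' + k + l))) = 0 := by
      rw [map_sub, e1 hβ0 n, e1 hβ0 n']
      have f1 : β ^ (n + k + l) * (pre β a (n + k) - pre β b (n + l)) = β ^ (k + l) * d := by
        rw [← hn]; ring
      have f2 : β ^ (n' + k + l) * (pre β a (n' + k) - pre β b (n' + l)) = β ^ (k + l) * d := by
        rw [← hn']; ring
      rw [f1, f2, sub_self]
    have e3 := transfer hγ e2
    rw [map_sub, e1 hγ0 n, e1 hγ0 n', sub_eq_zero] at e3
    rw [hC0, ← e3]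
    rw [mul_comm (γ ^ (n + k + l)), mul_assoc, ← mul_pow, mul_inv_cancel₀ hγ0, one_pow, mul_one,
      sub_self]
  have ht : Tendsto (fun n => pre γ a (n + k) - pre γ b (n + l) - C0 * (γ⁻¹) ^ (n + k + l)) atTop
      (𝓝 (cv γ⁻¹ a - cv γ⁻¹ b - C0 * 0)) := by
    refine ((tendsto_pre hz a k).sub (tendsto_pre hz b l)).sub (Tendsto.const_mul _ ?_)
    refine (tendsto_pow_atTop_nhds_zero_of_norm_lt_one hz).comp ?_
    simp only [add_assoc]
    exact tendsto_add_atTop_nat (k + l)
  have hmem : cv γ⁻¹ a - cv γ⁻¹ b - C0 * 0 ∈ closure ({0} : Set ℂ) :=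
    mem_closure_of_frequently_of_tendsto (hd.mono fun n hn => key n hn) ht
  rw [closure_singleton, Set.mem_singleton_iff, mul_zero, sub_zero, sub_eq_zero] at hmem
  exact hmem

theorem eps_sq {x y : Bool} (h : x ≠ y) :
    ((if x then (1 : ℤ) else 0) - (if y then (1 : ℤ) else 0)) *
      ((if x then (1 : ℤ) else 0) - (if y then (1 : ℤ) else 0)) = 1 := by
  cases x <;> cases y <;> simp at h ⊢

open Polynomial in
theorem integral_of_returns {β : ℝ} (h1 : 1 < β) {a : ℕ → Bool} (ha : Returns β a)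
    (hne : normalise β a ≠ a) : IsIntegral ℤ β := by
  classical
  obtain ⟨k, l, d, hd⟩ := ha
  have hβ0 : β ≠ 0 := by positivity
  set b := normalise β a with hb
  have hex : ∃ j, a j ≠ b j := by
    by_contra h
    exact hne (funext fun j => (not_not.1 fun h' => h ⟨j, h'⟩ : a j = b j).symm)
  set j := Nat.find hex with hj
  have hj1 : a j ≠ b j := Nat.find_spec hex
  have hj2 : ∀ i < j, a i = b i := fun i hi => not_not.1 (Nat.find_min hex hi)
  obtain ⟨n', hn'⟩ := hd.exists
  obtain ⟨n, hn, hnn⟩ := (hd.and_eventually (eventually_ge_atTop (n' + j + 1 + k + l))).exists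
  have e1 : ∀ n : ℕ,
      aeval β (ppoly a (n + k) (n + k + l) - ppoly b (n + l) (n + k + l)) =
        β ^ (n + k + l) * (pre β a (n + k) - pre β b (n + l)) := by
    intro n
    rw [map_sub, aeval_ppoly hβ0 a (by omega), aeval_ppoly hβ0 b (by omega)]
    ring
  set E : ℤ[X] := (ppoly a (n + k) (n + k + l) - ppoly b (n + l) (n + k + l)) -
        (ppoly a (n' + k) (n' + k + l) - ppoly b (n' + l) (n' + k + l)) with hE
  have e2 : aeval β E = 0 := by
    rw [hE, map_sub, e1 n, e1 n']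
    have f1 : β ^ (n + k + l) * (pre β a (n + k) - pre β b (n + l)) = β ^ (k + l) * d := by
      rw [← hn]; ring
    have f2 : β ^ (n' + k + l) * (pre β a (n' + k) - pre β b (n' + l)) = β ^ (k + l) * d := by
      rw [← hn']; ring
    rw [f1, f2, sub_self]
  set N := n + k + l with hN
  set D := N - 1 - j with hD
  -- split `ppoly` at `j`
  have split : ∀ (c : ℕ → Bool) (m : ℕ), j < m → ppoly c m N =
      (∑ i ∈ Finset.range j, C (if c i then (1 : ℤ) else 0) * X ^ (N - 1 - i)) +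
        C (if c j then (1 : ℤ) else 0) * X ^ D +
        ∑ i ∈ Finset.Ico (j + 1) m, C (if c i then (1 : ℤ) else 0) * X ^ (N - 1 - i) := by
    intro c m hm
    unfold ppoly
    rw [← Finset.sum_range_succ (fun i => C (if c i then (1 : ℤ) else 0) * X ^ (N - 1 - i)) j]
    exact (Finset.sum_range_add_sum_Ico _ (by omega : j + 1 ≤ m)).symm
  have low1 : ∀ (c : ℕ → Bool) (m : ℕ), m ≤ N →
      (∑ i ∈ Finset.Ico (j + 1) m, C (if c i then (1 : ℤ) else 0) * X ^ (N - 1 - i)) ∈
        degreeLT ℤ D := by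
    intro c m hm
    refine Submodule.sum_mem _ fun i hi => ?_
    rw [Finset.mem_Ico] at hi
    rw [mem_degreeLT]
    refine (degree_C_mul_X_pow_le _ _).trans_lt ?_
    exact_mod_cast (by omega : N - 1 - i < D)
  have low2 : ∀ (c : ℕ → Bool) (m : ℕ), m ≤ n' + k + l → ppoly c m (n' + k + l) ∈
        degreeLT ℤ D := by
    intro c m hm
    unfold ppoly
    refine Submodule.sum_mem _ fun i hi => ?_
    rw [Finset.mem_range] at hi
    rw [mem_degreeLT]
    refine (degree_C_mul_X_pow_le _ _).trans_lt ?_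
    exact_mod_cast (by omega : n' + k + l - 1 - i < D)
  have hsame : (∑ i ∈ Finset.range j, C (if a i then (1 : ℤ) else 0) * X ^ (N - 1 - i)) =
      ∑ i ∈ Finset.range j, C (if b i then (1 : ℤ) else 0) * X ^ (N - 1 - i) :=
    Finset.sum_congr rfl fun i hi => by rw [hj2 i (Finset.mem_range.1 hi)]
  set q : ℤ[X] := (∑ i ∈ Finset.Ico (j + 1) (n + k), C (if a i then (1 : ℤ) else 0) *
      X ^ (N - 1 - i)) - (∑ i ∈ Finset.Ico (j + 1) (n + l), C (if b i then (1 : ℤ) else 0) *
      X ^ (N - 1 - i)) - (ppoly a (n' + k) (n' + k + l) - ppoly b (n' + l) (n' + k + l)) with hq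
  have hqlow : q ∈ degreeLT ℤ D :=
    Submodule.sub_mem _ (Submodule.sub_mem _ (low1 a _ (by omega)) (low1 b _ (by omega)))
      (Submodule.sub_mem _ (low2 a _ (by omega)) (low2 b _ (by omega)))
  set ε : ℤ := (if a j then (1 : ℤ) else 0) - (if b j then (1 : ℤ) else 0) with hε
  have hε2 : ε * ε = 1 := by
    rw [hε]
    exact eps_sq hj1
  have hEq : E = C ε * X ^ D + q := by
    rw [hE, split a (n + k) (by omega), split b (n + l) (by omega), hsame, hq, hε, C_sub]
    ring
  refine ⟨C ε * E, ?_, ?_⟩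
  · have : C ε * E = X ^ D + C ε * q := by
      rw [hEq, mul_add, ← mul_assoc, ← C_mul, hε2, C_1, one_mul]
    rw [this]
    refine monic_X_pow_add ?_
    have := hqlow
    rw [mem_degreeLT] at this
    refine lt_of_le_of_lt ?_ this
    rw [← smul_eq_C_mul]
    exact degree_smul_le _ _
  · have : eval₂ (algebraMap ℤ ℝ) β (C ε * E) = aeval β (C ε * E) := rfl
    rw [this, map_mul, e2, mul_zero]

end Pool.Agent.FWP39
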