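import Pool.Agent.FWP39.Conj

open Filter MeasureTheory Topology

noncomputable section

namespace Pool.Agent.FWP39

/-! ### Extension to all sequences -/

theorem Agree.trans {n : ℕ} {a b c : ℕ → Bool} (h : Agree n a b) (h' : Agree n b c) :
    Agree n a c := fun i hi => (h i hi).trans (h' i hi)

theorem Agree.mono {m n : ℕ} (hmn : m ≤ n) {a b : ℕ → Bool} (h : Agree n a b) : Agree m a b :=
  fun i hi => h i (lt_of_lt_of_le hi hmn)

theorem Agree.symm {n : ℕ} {a b : ℕ → Bool} (h : Agree n a b) : Agree n b a :=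
  fun i hi => (h i hi).symm

theorem approx {z : ℂ} (hz : ‖z‖ < 1) {β : ℝ} {e g : ℕ → Bool}
    (H : ∀ m, ∃ c, Agree m e c ∧ cv z c = cv z (greedy β (val β c)) ∧
      Agree m (greedy β (val β c)) g) : cv z e = cv z g := by
  have h : ∀ m, ‖cv z e - cv z g‖ ≤ ‖z‖ ^ m * (2 * (2 * (‖z‖ / (1 - ‖z‖)))) := by
    intro m
    obtain ⟨c, h1, h2, h3⟩ := H m
    have e1 := cv_agree hz h1
    have e2 := cv_agree hz h3
    have : cv z e - cv z g = (cv z e - cv z c) + (cv z (greedy β (val β c)) - cv z g) := by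
      rw [h2]; ring
    rw [this]
    refine (norm_add_le _ _).trans ?_
    linarith
  have ht : Tendsto (fun m : ℕ => ‖z‖ ^ m * (2 * (2 * (‖z‖ / (1 - ‖z‖))))) atTop
      (𝓝 (0 * (2 * (2 * (‖z‖ / (1 - ‖z‖)))))) :=
    (tendsto_pow_atTop_nhds_zero_of_lt_one (norm_nonneg _) hz).mul_const _
  rw [zero_mul] at ht
  have := ge_of_tendsto' ht h
  rw [← sub_eq_zero]
  exact norm_le_zero_iff.1 this

/-- the sequence `e_0 … e_{N-1} t t t …` -/
def fill (e : ℕ → Bool) (N : ℕ) (t : Bool) : ℕ → Bool := fun i => if i < N then e i else t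

theorem agree_fill (e : ℕ → Bool) (N : ℕ) (t : Bool) : Agree N e (fill e N t) := by
  intro i hi
  unfold fill
  rw [if_pos hi]

theorem sh_fill (e : ℕ → Bool) (N : ℕ) (t : Bool) : sh N (fill e N t) = fun _ => t := by
  funext i
  unfold sh fill
  rw [if_neg (by omega)]

theorem val_true {β : ℝ} (h1 : 1 < β) : val β (fun _ => true) = 1 / (β - 1) := by
  have hb : β⁻¹ < 1 := inv_lt_one_of_one_lt₀ h1
  have hb0 : 0 ≤ β⁻¹ := by positivity
  rw [← R_eq h1, ← tsum_pow_succ hb0 hb]
  rfl

theorem val_false (β : ℝ) : val β (fun _ => false) = 0 := by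
  unfold val
  simp

theorem small {β : ℝ} (h1 : 1 < β) {δ : ℝ} (hδ : 0 < δ) (m : ℕ) :
    ∃ N, m ≤ N ∧ (β⁻¹) ^ N * (1 / (β - 1)) < δ := by
  have hb : β⁻¹ < 1 := inv_lt_one_of_one_lt₀ h1
  have hb0 : 0 ≤ β⁻¹ := by positivity
  have ht : Tendsto (fun n : ℕ => (β⁻¹) ^ n * (1 / (β - 1))) atTop (𝓝 (0 * (1 / (β - 1)))) :=
    (tendsto_pow_atTop_nhds_zero_of_lt_one hb0 hb).mul_const _
  rw [zero_mul] at ht
  obtain ⟨N, hN⟩ := ((ht.eventually (gt_mem_nhds hδ)).and (eventually_ge_atTop m)).exists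
  exact ⟨N, hN.2, hN.1⟩

theorem val_split_eq {β : ℝ} (h1 : 1 < β) {a b : ℕ → Bool} {n : ℕ} (h : Agree n a b) :
    val β b - val β a = (β⁻¹) ^ n * (val β (sh n b) - val β (sh n a)) := by
  rw [val_split h1 a n, val_split h1 b n]
  have e : ∑ i ∈ Finset.range n, (if a i then (β⁻¹) ^ (i + 1) else 0) =
      ∑ i ∈ Finset.range n, (if b i then (β⁻¹) ^ (i + 1) else 0) :=
    Finset.sum_congr rfl fun i hi => by rw [h i (Finset.mem_range.1 hi)]
  rw [e]
  ring

section dense

variable {β : ℝ} {z : ℂ} {D : Set (ℕ → Bool)} {w : ℕ → Bool} {n0 : ℕ}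

theorem right_app (h1 : 1 < β) (hz : ‖z‖ < 1)
    (hD : ∀ e N, Agree n0 w e → ∃ c ∈ D, Agree N e c)
    (hW : ∀ c ∈ D, cv z c = cv z (greedy β (val β c))) {e : ℕ → Bool} (he : Agree n0 w e)
    (hR : ∀ N, val β (sh N e) < 1 / (β - 1)) : cv z e = cv z (greedy β (val β e)) := by
  refine approx (β := β) hz fun m => ?_
  obtain ⟨δ, hδ, H⟩ := greedy_right h1 m (val β e)
  obtain ⟨N, hN, hNδ⟩ := small h1 hδ (max m n0)
  have hη : 0 < (β⁻¹) ^ N * (1 / (β - 1) - val β (sh N e)) := by
    have := hR N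
    have h3 : 0 < 1 / (β - 1) - val β (sh N e) := by linarith
    positivity
  obtain ⟨M, hM, hMη⟩ := small h1 hη N
  obtain ⟨c, hc, hAc⟩ := hD (fill e N true) M
    (he.trans ((agree_fill e N true).mono ((le_max_right m n0).trans hN)))
  have a1 := val_agree h1 hAc
  have a2 : Agree N e c := (agree_fill e N true).trans (hAc.mono hM)
  have a3 := val_agree h1 a2
  have v1 := val_split_eq h1 (agree_fill e N true)
  rw [sh_fill, val_true h1] at v1
  rw [abs_le] at a1 a3
  refine ⟨c, a2.mono ((le_max_left m n0).trans hN), hW c hc, ?_⟩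
  exact H (val β c) (by linarith) (by linarith)

theorem left_app (h1 : 1 < β) (hz : ‖z‖ < 1)
    (hD : ∀ e N, Agree n0 w e → ∃ c ∈ D, Agree N e c)
    (hW : ∀ c ∈ D, cv z c = cv z (greedy β (val β c))) {e : ℕ → Bool} (he : Agree n0 w e)
    (hR : ∀ N, 0 < val β (sh N e)) : cv z e = cv z (qgreedy β (val β e)) := by
  refine approx (β := β) hz fun m => ?_
  obtain ⟨δ, hδ, H⟩ := greedy_left h1 m (val β e)
  obtain ⟨N, hN, hNδ⟩ := small h1 hδ (max m n0)
  have hη : 0 < (β⁻¹) ^ N * (val β (sh N e)) := by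
    have := hR N
    positivity
  obtain ⟨M, hM, hMη⟩ := small h1 hη N
  obtain ⟨c, hc, hAc⟩ := hD (fill e N false) M
    (he.trans ((agree_fill e N false).mono ((le_max_right m n0).trans hN)))
  have a1 := val_agree h1 hAc
  have a2 : Agree N e c := (agree_fill e N false).trans (hAc.mono hM)
  have a3 := val_agree h1 a2
  have v1 := val_split_eq h1 (agree_fill e N false)
  rw [sh_fill, val_false] at v1
  rw [abs_le] at a1 a3
  refine ⟨c, a2.mono ((le_max_left m n0).trans hN), hW c hc, ?_⟩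
  exact H (val β c) (by linarith) (by linarith)

theorem val_step (h1 : 1 < β) (a : ℕ → Bool) :
    val β a = (if a 0 then β⁻¹ else 0) + β⁻¹ * val β (sh 1 a) := by
  have := val_split h1 a 1
  simpa using this

theorem sh_add (m n : ℕ) (a : ℕ → Bool) : sh m (sh n a) = sh (n + m) a := by
  funext i
  unfold sh
  rw [add_assoc]

theorem sh_zero (a : ℕ → Bool) : sh 0 a = a := by
  funext i
  unfold sh
  rw [zero_add]

theorem val_sh_R (h1 : 1 < β) {a : ℕ → Bool} (h : val β a = 1 / (β - 1)) (N : ℕ) :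
    val β (sh N a) = 1 / (β - 1) := by
  induction N with
  | zero => rw [sh_zero, h]
  | succ N ih =>
    have h3 := val_step h1 (sh N a)
    rw [sh_add, ih] at h3
    have h4 := val_le h1 (sh (N + 1) a)
    have hb : 0 < β := by linarith
    have hb1 : 0 < β - 1 := by linarith
    refine le_antisymm h4 ?_
    have h5 : (if (sh N a) 0 then β⁻¹ else 0 : ℝ) ≤ β⁻¹ := by
      split_ifs
      · exact le_rfl
      · positivity
    have h6 : 1 / (β - 1) ≤ β⁻¹ + β⁻¹ * val β (sh (N + 1) a) := by rw [h3]; linarith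
    have h7 : β * (1 / (β - 1)) ≤ 1 + val β (sh (N + 1) a) := by
      have := mul_le_mul_of_nonneg_left h6 hb.le
      rw [mul_add, ← mul_assoc, mul_inv_cancel₀ hb.ne', one_mul] at this
      exact this
    have h8 : β * (1 / (β - 1)) = 1 + 1 / (β - 1) := by
      field_simp; ring
    linarith

theorem val_sh_zero (h1 : 1 < β) {a : ℕ → Bool} (h : val β a = 0) (N : ℕ) :
    val β (sh N a) = 0 := by
  have h3 := val_split h1 a N
  rw [h] at h3
  have h4 : 0 ≤ ∑ i ∈ Finset.range N, (if a i then (β⁻¹) ^ (i + 1) else 0 : ℝ) := by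
    refine Finset.sum_nonneg fun i _ => ?_
    split_ifs <;> positivity
  have h5 := val_nonneg h1 (sh N a)
  have hb : 0 < (β⁻¹) ^ N := by positivity
  by_contra hne
  have : 0 < val β (sh N a) := lt_of_le_of_ne h5 (Ne.symm hne)
  have := mul_pos hb this
  linarith

theorem eq_false_of_val (h1 : 1 < β) {a : ℕ → Bool} (h : val β a = 0) : a = fun _ => false := by
  funext N
  have h3 := val_step h1 (sh N a)
  rw [sh_add, val_sh_zero h1 h, val_sh_zero h1 h] at h3
  have hb : 0 < β⁻¹ := by positivity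
  by_contra hne
  have : (sh N a) 0 = true := by
    unfold sh; simpa using hne
  rw [if_pos this] at h3
  linarith

theorem eq_true_of_val (h1 : 1 < β) {a : ℕ → Bool} (h : val β a = 1 / (β - 1)) :
    a = fun _ => true := by
  funext N
  have h3 := val_step h1 (sh N a)
  rw [sh_add, val_sh_R h1 h, val_sh_R h1 h] at h3
  have hb : 0 < β⁻¹ := by positivity
  have hb1 : 0 < β - 1 := by linarith
  by_contra hne
  have : (sh N a) 0 ≠ true := by
    unfold sh; simpa using hne
  rw [if_neg this, zero_add] at h3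
  have h4 : β⁻¹ < 1 := inv_lt_one_of_one_lt₀ h1
  have h5 : 0 < 1 / (β - 1) := by positivity
  nlinarith

theorem left_or_right (h1 : 1 < β) (e : ℕ → Bool) :
    (∀ N, val β (sh N e) < 1 / (β - 1)) ∨ ∀ N, 0 < val β (sh N e) := by
  by_contra h
  rw [not_or] at h
  obtain ⟨h3, h4⟩ := h
  obtain ⟨N, hN⟩ := not_forall.1 h3
  obtain ⟨M, hM⟩ := not_forall.1 h4
  have hN' : val β (sh N e) = 1 / (β - 1) := le_antisymm (val_le h1 _) (not_lt.1 hN)
  have hM' : val β (sh M e) = 0 := le_antisymm (not_lt.1 hM) (val_nonneg h1 _)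
  have e1 := val_sh_R h1 hN' M
  have e2 := val_sh_zero h1 hM' N
  rw [sh_add] at e1 e2
  rw [add_comm M N, e1] at e2
  have hb1 : 0 < β - 1 := by linarith
  have : 0 < 1 / (β - 1) := by positivity
  linarith

/-- `w_0 … w_{n-1} a` -/
def app (w : ℕ → Bool) (n : ℕ) (a : ℕ → Bool) : ℕ → Bool :=
  fun i => if i < n then w i else a (i - n)

theorem agree_app (w : ℕ → Bool) (n : ℕ) (a : ℕ → Bool) : Agree n w (app w n a) := by
  intro i hi
  unfold app
  rw [if_pos hi]

theorem sh_app (w : ℕ → Bool) (n : ℕ) (a : ℕ → Bool) : sh n (app w n a) = a := by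
  funext i
  unfold sh app
  rw [if_neg (by omega)]
  congr 1
  omega

theorem agree_app_app (w : ℕ → Bool) (n : ℕ) (a b : ℕ → Bool) :
    Agree n (app w n a) (app w n b) := (agree_app w n a).symm.trans (agree_app w n b)

/-- sequences with the same value at `β` have the same value at `z` -/
theorem same_val (h1 : 1 < β) (h2 : β < 2) (hz : ‖z‖ < 1) (hz0 : z ≠ 0)
    (hD : ∀ e N, Agree n0 w e → ∃ c ∈ D, Agree N e c)
    (hW : ∀ c ∈ D, cv z c = cv z (greedy β (val β c))) {a a' : ℕ → Bool}
    (haa : val β a = val β a') : cv z a = cv z a' := by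
  rcases (val_nonneg h1 a).eq_or_lt with h0 | h0
  · rw [eq_false_of_val h1 h0.symm, eq_false_of_val h1 (haa.symm.trans h0.symm)]
  rcases (val_le h1 a).eq_or_lt with hR | hR
  · rw [eq_true_of_val h1 hR, eq_true_of_val h1 (haa.symm.trans hR)]
  -- the two expansions
  have hv : ∀ b : ℕ → Bool, val β b = val β a → val β (app w n0 b) = val β (app w n0 a) := by
    intro b hb
    have := val_split_eq h1 (agree_app_app w n0 a b)
    rw [sh_app, sh_app, hb, sub_self, mul_zero] at this
    linarith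
  set x := val β (app w n0 a) with hx
  have hq : cv z (greedy β x) = cv z (qgreedy β x) := by
    set g := qgreedy β (val β a) with hg
    have hgv : val β g = val β a := val_qgreedy h1 h2 h0.le hR.le
    have hsh : ∀ N, 0 < val β (sh N g) ∧ val β (sh N g) < 1 / (β - 1) := by
      intro N
      have := iter_Tq_mem h1 h2 h0 hR N
      rw [hg, sh_qgreedy, val_qgreedy h1 h2 this.1.le this.2.le]
      exact this
    have hsh' : ∀ N, 0 < val β (sh N (app w n0 g)) ∧
        val β (sh N (app w n0 g)) < 1 / (β - 1) := by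
      intro N
      constructor
      · refine lt_of_le_of_ne (val_nonneg h1 _) fun he => ?_
        have := val_sh_zero h1 he.symm n0
        rw [sh_add, add_comm, ← sh_add N n0, sh_app] at this
        exact (hsh N).1.ne' this
      · refine lt_of_le_of_ne (val_le h1 _) fun he => ?_
        have := val_sh_R h1 he n0
        rw [sh_add, add_comm, ← sh_add N n0, sh_app] at this
        exact (hsh N).2.ne this
    have e1 := right_app h1 hz hD hW (agree_app w n0 g) fun N => (hsh' N).2
    have e2 := left_app h1 hz hD hW (agree_app w n0 g) fun N => (hsh' N).1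
    rw [hv g hgv] at e1 e2
    rw [← e1, e2]
  have main : ∀ b : ℕ → Bool, val β b = val β a → cv z (app w n0 b) = cv z (greedy β x) := by
    intro b hb
    rcases left_or_right h1 (app w n0 b) with h | h
    · rw [right_app h1 hz hD hW (agree_app w n0 b) h, hv b hb]
    · rw [left_app h1 hz hD hW (agree_app w n0 b) h, hv b hb, hq]
  have e1 := main a rfl
  have e2 := main a' haa.symm
  have e3 := cv_split hz (app w n0 a) n0
  have e4 := cv_split hz (app w n0 a') n0
  rw [sh_app] at e3 e4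
  have e5 : ∑ i ∈ Finset.range n0, (if app w n0 a i then z ^ (i + 1) else 0) =
      ∑ i ∈ Finset.range n0, (if app w n0 a' i then z ^ (i + 1) else 0) :=
    Finset.sum_congr rfl fun i hi => by
      rw [agree_app_app w n0 a a' i (Finset.mem_range.1 hi)]
  have e6 : z ^ n0 * cv z a = z ^ n0 * cv z a' := by
    rw [e5] at e3
    have : cv z (app w n0 a) = cv z (app w n0 a') := e1.trans e2.symm
    rw [e3, e4] at this
    exact add_left_cancel this
  exact mul_left_cancel₀ (pow_ne_zero _ hz0) e6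

end dense

end Pool.Agent.FWP39
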