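import Pool.Agent.FWP39.Rigid
import Pool.Agent.FWP39.Dense

open Filter MeasureTheory Topology

noncomputable section

namespace Pool.Agent.FWP39

/-! ### The core theorem -/

theorem greedy_of_eq {β : ℝ} (h1 : 1 < β) (h2 : β < 2) {c : ℕ → Bool} (h : normalise β c = c)
    {n : ℕ} (hn : 1 / β < val β (sh n c)) : c n = true := by
  classical
  unfold normalise at h
  set x := val β c with hx
  have hx0 : 0 ≤ x := val_nonneg h1 c
  have hxR : x ≤ 1 / (β - 1) := val_le h1 c
  have e1 : sh n c = greedy β ((T β)^[n] x) := by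
    conv_lhs => rw [← h]
    exact sh_greedy β x n
  have e2 : val β (sh n c) = (T β)^[n] x := by
    rw [e1]
    exact val_greedy h1 h2 (iter_T_mem h1 h2 hx0 hxR n).1 (iter_T_mem h1 h2 hx0 hxR n).2
  rw [e2] at hn
  rw [← h]
  exact decide_eq_true hn.le

open Polynomial in
theorem core {β : ℝ} (h1 : 1 < β) (h2 : β < 2) {w : ℕ → Bool} {n0 : ℕ}
    (hD : ∀ e N, Agree n0 w e → ∃ c ∈ {c | Returns β c}, Agree N e c) :
    IsIntegral ℤ β ∧ ∀ γ : ℂ, aeval γ (minpoly ℚ β) = 0 → γ ≠ β → ‖γ‖ ≤ 1 := by
  have hb0 : 0 < β := by linarith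
  have hb1 : 0 < β - 1 := by linarith
  have hR1 : 1 < 1 / (β - 1) := by rw [lt_div_iff₀ hb1]; linarith
  constructor
  · -- integrality
    obtain ⟨K, -, hK⟩ := small h1 (sub_pos.2 hR1) 0
    set e := app w n0 (app (fun _ => false) 1 (fun _ => true)) with he
    obtain ⟨c, hc, hec⟩ := hD e (n0 + 1 + K) (agree_app _ _ _)
    refine integral_of_returns h1 hc fun hno => ?_
    have hc0 : c n0 = false := by
      rw [← hec n0 (by omega), he]
      unfold app
      simp
    have hsh : Agree K (fun _ => true) (sh (n0 + 1) c) := by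
      intro i hi
      unfold sh
      rw [← hec (n0 + 1 + i) (by omega), he]
      unfold app
      rw [if_neg (by omega), if_neg (by omega)]
    have hv := val_agree h1 hsh
    rw [val_true h1, abs_le] at hv
    have hv1 : 1 < val β (sh (n0 + 1) c) := by linarith
    have hv2 := val_step h1 (sh n0 c)
    rw [sh_add] at hv2
    have hz : (sh n0 c) 0 = false := by unfold sh; simpa using hc0
    rw [hz, if_neg (by simp), zero_add] at hv2
    have hv3 : 1 / β < val β (sh n0 c) := by
      rw [hv2, one_div]
      exact lt_mul_of_one_lt_right (by positivity) hv1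
    have := greedy_of_eq h1 h2 hno hv3
    rw [hc0] at this
    exact Bool.false_ne_true this
  · -- conjugates
    intro γ hγ hne
    by_contra hlt
    rw [not_le] at hlt
    refine hne ?_
    have hγ0 : γ ≠ 0 := by intro h; rw [h, norm_zero] at hlt; linarith
    have hz : ‖γ⁻¹‖ < 1 := by rw [norm_inv]; exact inv_lt_one_of_one_lt₀ hlt
    have hz0 : γ⁻¹ ≠ 0 := inv_ne_zero hγ0
    have hW : ∀ c ∈ {c | Returns β c}, cv γ⁻¹ c = cv γ⁻¹ (greedy β (val β c)) :=
      fun c hc => cv_normalise h1 hγ hlt hc
    have same : ∀ a a' : ℕ → Bool, val β a = val β a' → cv γ⁻¹ a = cv γ⁻¹ a' :=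
      fun a a' h => same_val h1 h2 hz hz0 hD hW h
    have hsys : Sys β γ (1 / (β - 1)) (fun x => cv γ⁻¹ (greedy β x)) := by
      refine ⟨h1, h2, by field_simp, hlt, fun x hx0 hxR => ?_, fun x hx0 hxR => ?_, ?_⟩
      · have hv : val β (app (fun _ => false) 1 (greedy β x)) = x / β := by
          rw [val_step h1, sh_app, val_greedy h1 h2 hx0 hxR]
          unfold app
          simp only [Nat.lt_one_iff, if_pos, Bool.false_eq_true, if_false]
          ring
        have hx1 : x / β ≤ 1 / (β - 1) := (div_le_self hx0 h1.le).trans hxR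
        have e1 := same (greedy β (x / β)) (app (fun _ => false) 1 (greedy β x))
          (by rw [hv, val_greedy h1 h2 (by positivity) hx1])
        show cv γ⁻¹ (greedy β (x / β)) = cv γ⁻¹ (greedy β x) / γ
        rw [e1, cv_split hz _ 1, sh_app]
        unfold app
        simp only [Finset.range_one, Finset.sum_singleton, Nat.lt_one_iff, if_pos,
          Bool.false_eq_true, if_false, pow_one]
        ring
      · have hv : val β (app (fun _ => true) 1 (greedy β x)) = (x + 1) / β := by
          rw [val_step h1, sh_app, val_greedy h1 h2 hx0 hxR]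
          unfold app
          simp only [Nat.lt_one_iff, if_pos]
          ring
        have hx1 : (x + 1) / β ≤ 1 / (β - 1) := by
          rw [le_div_iff₀ hb1] at hxR ⊢
          rw [div_mul_eq_mul_div, div_le_iff₀ hb0]
          nlinarith
        have e1 := same (greedy β ((x + 1) / β)) (app (fun _ => true) 1 (greedy β x))
          (by rw [hv, val_greedy h1 h2 (by positivity) hx1])
        show cv γ⁻¹ (greedy β ((x + 1) / β)) = (cv γ⁻¹ (greedy β x) + 1) / γ
        rw [e1, cv_split hz _ 1, sh_app]
        unfold app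
        simp only [Finset.range_one, Finset.sum_singleton, Nat.lt_one_iff, if_pos, pow_one,
          zero_add]
        ring
      · exact ⟨_, fun x _ _ => norm_cv_le hz _⟩
    exact hsys.eq fun p hp => transfer hγ hp

end Pool.Agent.FWP39
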