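import Mathlib

/-!
# Normalisation of 0-1 sequences in base `β` and the finite word property

`Σ = {0,1}^ℕ` is `ℕ → Bool`, with the fair coin measure; words are lists of Booleans.
-/

open Filter MeasureTheory

noncomputable section

namespace Pool.Agent.FWP39

/-- `π(a) = ∑_{i ≥ 1} a_i β^{-i}` (the digits are indexed from `0` here) -/
def val (β : ℝ) (a : ℕ → Bool) : ℝ := ∑' i, if a i then (β⁻¹) ^ (i + 1) else 0

/-- the greedy map `T(x) = β x` for `x < 1/β`, `T(x) = β x - 1` for `x ≥ 1/β` -/
def T (β x : ℝ) : ℝ := if x < 1 / β then β * x else β * x - 1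

open scoped Classical in
/-- the greedy expansion of `x`: the digit `n` is `1` iff `T^n x ≥ 1/β` -/
def greedy (β x : ℝ) : ℕ → Bool := fun n => decide (1 / β ≤ (T β)^[n] x)

/-- the normalisation map `P_β` -/
def normalise (β : ℝ) (a : ℕ → Bool) : ℕ → Bool := greedy β (val β a)

/-- the fair coin measure on `{0,1}^ℕ` -/
def coin : Measure (ℕ → Bool) :=
  Measure.infinitePi fun _ => (PMF.uniformOfFintype Bool).toMeasure

/-- the sequence `a` starts with the word `l`, i.e. `a` lies in the cylinder `[l]` -/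
def Starts (l : List Bool) (a : ℕ → Bool) : Prop := ∀ (i : ℕ) (h : i < l.length), a i = l[i]

/-- the sequence `l a` -/
def cat (l : List Bool) (a : ℕ → Bool) : ℕ → Bool :=
  fun i => if h : i < l.length then l[i] else a (i - l.length)

/-- the word `w_0 w_1 … w_{j-1}` -/
def block (w : ℕ → List Bool) : ℕ → List Bool
  | 0 => []
  | j + 1 => block w j ++ w j

/-- `a = w_0 w_1 w_2 …` -/
def IsConcat (w : ℕ → List Bool) (a : ℕ → Bool) : Prop := ∀ j, Starts (block w j) a

/-- The property that the normalisation is computed block by block: there are a set `Ω` of nonempty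
words whose cylinders cover `{0,1}^ℕ` up to a null set, a length preserving map `P` on `Ω`, and
two fixed words `u`, `v`, such that for every sequence `a = w_0 w_1 w_2 …` with all `w_j ∈ Ω`
`P_β(u a) = v P(w_0) P(w_1) P(w_2) …`. -/
def BlockProperty (β : ℝ) : Prop :=
  ∃ (Ω : Set (List Bool)) (P : List Bool → List Bool) (u v : List Bool),
    (∀ ω ∈ Ω, ω ≠ []) ∧
    coin {a | ∃ ω ∈ Ω, Starts ω a}ᶜ = 0 ∧
    (∀ ω ∈ Ω, (P ω).length = ω.length) ∧
    ∀ w : ℕ → List Bool, (∀ j, w j ∈ Ω) → ∀ a, IsConcat w a →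
      ∃ b, IsConcat (fun j => P (w j)) b ∧ normalise β (cat u a) = cat v b

end Pool.Agent.FWP39
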