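import Pool.Agent.FWP39.Words

/-!
# The golden mean has the block property

With `u = 0`, `v` empty and `Ω` the words that end in `00`.
-/

open Filter MeasureTheory Topology

noncomputable section

namespace Pool.Agent.FWP39

/-- value of a word, recursively -/
def lv (β : ℝ) : List Bool → ℝ
  | [] => 0
  | x :: l => β⁻¹ * ((if x then 1 else 0) + lv β l)

theorem cat_nil (a : ℕ → Bool) : cat [] a = a := by
  funext i
  unfold cat
  simp

theorem cat_append (l l' : List Bool) (a : ℕ → Bool) : cat (l ++ l') a = cat l (cat l' a) := by
  funext i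
  unfold cat
  by_cases h : i < l.length
  · rw [dif_pos (by rw [List.length_append]; omega), dif_pos h, List.getElem_append_left h]
  · rw [dif_neg h]
    by_cases h' : i < (l ++ l').length
    · rw [List.length_append] at h'
      rw [dif_pos (by rw [List.length_append]; omega), dif_pos (by omega),
        List.getElem_append_right (by omega)]
    · rw [List.length_append] at h'
      rw [dif_neg (by rw [List.length_append]; omega), dif_neg (by omega)]
      congr 1
      rw [List.length_append]
      omega

theorem val_cat_single {β : ℝ} (h1 : 1 < β) (x : Bool) (a : ℕ → Bool) :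
    val β (cat [x] a) = β⁻¹ * ((if x then 1 else 0) + val β a) := by
  rw [val_step h1 (cat [x] a)]
  have e : sh 1 (cat [x] a) = a := sh_cat [x] a
  rw [e]
  have e0 : cat [x] a 0 = x := by
    unfold cat
    simp
  rw [e0]
  split_ifs <;> ring

theorem val_cat_lv {β : ℝ} (h1 : 1 < β) (l : List Bool) (a : ℕ → Bool) :
    val β (cat l a) = lv β l + (β⁻¹) ^ l.length * val β a := by
  induction l with
  | nil => simp [cat_nil, lv]
  | cons x l ih =>
    have : cat (x :: l) a = cat [x] (cat l a) := cat_append [x] l a
    rw [this, val_cat_single h1, ih]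
    simp only [lv, List.length_cons, pow_succ]
    ring

theorem greedy_cons (β x : ℝ) :
    greedy β x = cat [decide (1 / β ≤ x)] (greedy β (T β x)) := by
  classical
  funext n
  rcases n with _ | n
  · unfold greedy cat
    simp
  · unfold greedy cat
    simp

/-- no two consecutive ones -/
def NN : List Bool → Prop
  | [] => True
  | x :: l => (x = true → l.head? ≠ some true) ∧ NN l

theorem trichotomy (z : List Bool) :
    (∃ s t, z = s ++ ([false, true, true] ++ t)) ∨ (∃ t, z = true :: true :: t) ∨ NN z := by
  induction z with
  | nil => exact Or.inr (Or.inr trivial)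
  | cons x z ih =>
    rcases ih with ⟨s, t, h⟩ | ⟨t, h⟩ | h
    · exact Or.inl ⟨x :: s, t, by rw [h]; rfl⟩
    · rcases x with _ | _
      · exact Or.inl ⟨[], t, by rw [h]; rfl⟩
      · exact Or.inr (Or.inl ⟨true :: t, by rw [h]⟩)
    · rcases z with _ | ⟨y, z⟩
      · exact Or.inr (Or.inr ⟨by simp, trivial⟩)
      · rcases x with _ | _
        · exact Or.inr (Or.inr ⟨by simp, h⟩)
        · rcases y with _ | _
          · exact Or.inr (Or.inr ⟨by simp, h⟩)
          · exact Or.inr (Or.inl ⟨z, rfl⟩)

theorem lv_nonneg {β : ℝ} (h1 : 1 < β) (l : List Bool) : 0 ≤ lv β l := by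
  induction l with
  | nil => exact le_rfl
  | cons x l ih =>
    simp only [lv]
    have : 0 < β⁻¹ := by positivity
    split_ifs <;> positivity

theorem lv_append_congr {β : ℝ} (s : List Bool) {t t' : List Bool} (h : lv β t = lv β t') :
    lv β (s ++ t) = lv β (s ++ t') := by
  induction s with
  | nil => exact h
  | cons x s ih => simp only [List.cons_append, lv, ih]

theorem lv_swap {β : ℝ} (h1 : 1 < β) (hβ : β ^ 2 = β + 1) (s t : List Bool) :
    lv β (s ++ ([false, true, true] ++ t)) = lv β (s ++ ([true, false, false] ++ t)) := by
  refine lv_append_congr s ?_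
  have hb : β ≠ 0 := by positivity
  simp only [List.cons_append, List.nil_append, lv]
  simp only [Bool.false_eq_true, if_false, if_true]
  field_simp
  linear_combination (-1 : ℝ) * hβ

theorem normal_form {β : ℝ} (h1 : 1 < β) (hβ : β ^ 2 = β + 1) (m : ℕ) :
    ∀ z : List Bool, z.count true ≤ m → lv β z < 1 → z.getLast? = some false →
      ∃ c : List Bool, c.length = z.length ∧ lv β c = lv β z ∧ NN c ∧ c.getLast? = some false := by
  induction m with
  | zero =>
    intro z hz hv hl
    rcases trichotomy z with ⟨s, t, h⟩ | ⟨t, h⟩ | h
    · rw [h] at hz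
      simp [List.count_append] at hz
    · rw [h] at hz
      simp at hz
    · exact ⟨z, rfl, rfl, h, hl⟩
  | succ m ih =>
    intro z hz hv hl
    rcases trichotomy z with ⟨s, t, h⟩ | ⟨t, h⟩ | h
    · have hcount : (s ++ ([true, false, false] ++ t)).count true ≤ m := by
        rw [h] at hz
        simp [List.count_append] at hz ⊢
        omega
      have hval : lv β (s ++ ([true, false, false] ++ t)) = lv β z := by
        rw [h, lv_swap h1 hβ]
      have ht : t ≠ [] := by
        rintro rfl
        rw [h] at hl
        simp [List.getLast?_append] at hl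
      have hlast : (s ++ ([true, false, false] ++ t)).getLast? = some false := by
        rw [h] at hl
        rw [← List.append_assoc, List.getLast?_append_of_ne_nil _ ht] at hl ⊢
        exact hl
      obtain ⟨c, c1, c2, c3, c4⟩ := ih _ hcount (by rw [hval]; exact hv) hlast
      refine ⟨c, ?_, c2.trans hval, c3, c4⟩
      rw [c1, h]
      simp
    · exfalso
      have hb : 0 < β := by linarith
      have hn := lv_nonneg h1 t
      rw [h] at hv
      simp only [lv, if_true] at hv
      have e : β⁻¹ * (1 + β⁻¹ * (1 + lv β t)) = 1 + β⁻¹ * (β⁻¹ * lv β t) := by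
        field_simp
        linear_combination (-1 : ℝ) * hβ
      rw [e] at hv
      have : 0 ≤ β⁻¹ * (β⁻¹ * lv β t) := by positivity
      linarith
    · exact ⟨z, rfl, rfl, h, hl⟩

theorem greedy_word {β : ℝ} (h1 : 1 < β) (hβ : β ^ 2 = β + 1) {t : ℝ} (ht0 : 0 ≤ t) (ht : t < 1)
    (c : List Bool) (hc : NN c) (hl : c = [] ∨ c.getLast? = some false) :
    0 ≤ lv β c + (β⁻¹) ^ c.length * t ∧ lv β c + (β⁻¹) ^ c.length * t < 1 ∧
    (c.head? = some false → lv β c + (β⁻¹) ^ c.length * t < 1 / β) ∧
    greedy β (lv β c + (β⁻¹) ^ c.length * t) = cat c (greedy β t) := by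
  have hb : 0 < β := by linarith
  have hb1 : 1 / β < 1 := by rw [div_lt_one hb]; exact h1
  induction c with
  | nil => simp [lv, cat_nil, ht0, ht]
  | cons x c ih =>
    have hl' : c = [] ∨ c.getLast? = some false := by
      rcases c with _ | ⟨y, c⟩
      · exact Or.inl rfl
      · right
        rcases hl with h | h
        · exact absurd h (by simp)
        · rw [List.getLast?_cons_cons] at h
          exact h
    obtain ⟨i1, i2, i3, i4⟩ := ih hc.2 hl'
    set y := lv β c + (β⁻¹) ^ c.length * t with hy
    have e : lv β (x :: c) + (β⁻¹) ^ (x :: c).length * t =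
        β⁻¹ * ((if x then 1 else 0) + y) := by
      simp only [lv, List.length_cons, pow_succ, hy]
      ring
    rw [e]
    have hcat : cat (x :: c) (greedy β t) = cat [x] (cat c (greedy β t)) :=
      cat_append [x] c _
    rcases x with _ | _
    · have e1 : β⁻¹ * ((if false then 1 else 0) + y) = y / β := by
        simp only [Bool.false_eq_true, if_false]
        ring
      rw [e1]
      have h3 : y / β < 1 / β := div_lt_div_of_pos_right i2 hb
      refine ⟨by positivity, by linarith, fun _ => h3, ?_⟩
      rw [greedy_cons, hcat, ← i4]
      have h4 : decide (1 / β ≤ y / β) = false := decide_eq_false (not_le.2 h3)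
      rw [h4]
      congr 2
      unfold T
      rw [if_pos h3, mul_div_cancel₀ _ hb.ne']
    · have hc0 : c ≠ [] := by
        rintro rfl
        rcases hl with h | h <;> simp at h
      have hhead : c.head? = some false := by
        have := hc.1 rfl
        rcases c with _ | ⟨d, c⟩
        · exact absurd rfl hc0
        · rcases d with _ | _
          · rfl
          · exact absurd rfl this
      have h3 := i3 hhead
      have e1 : β⁻¹ * ((if true then 1 else 0) + y) = (1 + y) / β := by
        simp only [if_true]
        ring
      rw [e1]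
      have h5 : (1 + y) / β < 1 := by
        rw [div_lt_one hb]
        have : 1 / β = β - 1 := by
          rw [div_eq_iff hb.ne']
          linarith
        linarith
      have h6 : 1 / β ≤ (1 + y) / β := div_le_div_of_nonneg_right (by linarith) hb.le
      refine ⟨by positivity, h5, fun h => absurd h (by simp), ?_⟩
      rw [greedy_cons, hcat, ← i4]
      have h4 : decide (1 / β ≤ (1 + y) / β) = true := decide_eq_true h6
      rw [h4]
      congr 2
      unfold T
      rw [if_neg (not_lt.2 h6), mul_div_cancel₀ _ hb.ne']
      ring

/-- the output word: the first digits of the normalisation of `0 ω 0^∞` -/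
def outWord (β : ℝ) (ω : List Bool) : List Bool :=
  List.ofFn fun i : Fin ω.length => normalise β (cat [false] (cat ω fun _ => false)) i

theorem step_word {β : ℝ} (h1 : 1 < β) (hβ : β ^ 2 = β + 1) (l : List Bool) {a : ℕ → Bool}
    (ha : val β (cat [false] a) < 1) :
    normalise β (cat [false] (cat (l ++ [false, false]) a)) =
      cat (outWord β (l ++ [false, false])) (normalise β (cat [false] a)) := by
  set z : List Bool := [false] ++ l ++ [false] with hz
  have hzl : z.length = (l ++ [false, false]).length := by simp [hz]
  have hcat : ∀ a, cat [false] (cat (l ++ [false, false]) a) = cat z (cat [false] a) := by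
    intro a
    rw [← cat_append, ← cat_append, hz]
    congr 1
    simp
  have hv : lv β z < 1 := by
    have e : lv β z = val β (cat z fun _ => false) := by
      rw [val_cat_lv h1, val_false, mul_zero, add_zero]
    have e2 : cat z (fun _ => false) = cat [false] (cat (l ++ [false]) fun _ => false) := by
      rw [← cat_append, hz]
      congr 1
    rw [e, e2, val_cat_single h1]
    simp only [Bool.false_eq_true, if_false, zero_add]
    have hb : 0 < β := by linarith
    have h3 : val β (cat (l ++ [false]) fun _ => false) < β := by
      refine lt_of_le_of_ne ?_ fun h4 => ?_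
      · refine (val_le h1 _).trans (le_of_eq ?_)
        rw [div_eq_iff (by linarith)]
        linarith
      · have h5 : β = 1 / (β - 1) := by
          rw [eq_div_iff (by linarith)]
          linarith
        rw [h5, ← h5] at h4
        have h6 := eq_true_of_val h1 (h4.trans h5)
        have h7 := congrFun h6 (l ++ [false]).length
        unfold cat at h7
        simp at h7
    rw [inv_mul_lt_iff₀ hb, mul_one]
    exact h3
  have hlast : z.getLast? = some false := by
    rw [hz, List.getLast?_append_of_ne_nil _ (by simp)]
    rfl
  obtain ⟨c, c1, c2, c3, c4⟩ := normal_form h1 hβ (z.count true) z le_rfl hv hlast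
  have key : ∀ a, val β (cat [false] a) < 1 →
      normalise β (cat [false] (cat (l ++ [false, false]) a)) =
        cat c (normalise β (cat [false] a)) := by
    intro a ha
    have := (greedy_word h1 hβ (val_nonneg h1 _) ha c c3 (Or.inr c4)).2.2.2
    unfold normalise
    rw [hcat, val_cat_lv h1 z, ← c2, ← c1]
    exact this
  have hout : outWord β (l ++ [false, false]) = c := by
    have h0 := key (fun _ => false) (by
      have : cat [false] (fun _ => false) = fun _ => false := by
        funext i
        unfold cat
        split_ifs with h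
        · have : i = 0 := by simpa using h
          subst this
          rfl
        · rfl
      rw [this, val_false]
      exact one_pos)
    refine List.ext_getElem ?_ fun i hi1 hi2 => ?_
    · unfold outWord
      rw [List.length_ofFn, c1, hzl]
    · simp only [outWord, List.getElem_ofFn]
      rw [h0]
      unfold cat
      rw [dif_pos hi2]
  rw [key a ha, hout]

theorem eq_cat_of_starts {l : List Bool} {a : ℕ → Bool} (h : Starts l a) :
    a = cat l (sh l.length a) := by
  funext i
  unfold cat
  split_ifs with hi
  · exact h i hi
  · unfold sh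
    congr 1
    omega

theorem starts_cat (l : List Bool) (a : ℕ → Bool) : Starts l (cat l a) := by
  intro i hi
  unfold cat
  rw [dif_pos hi]

/-- the words that end in `00` -/
def endsInZeros : Set (List Bool) := {ω | ∃ l, ω = l ++ [false, false]}

theorem val_lt_of_concat {β : ℝ} (h1 : 1 < β) (hβ : β ^ 2 = β + 1) {w : ℕ → List Bool}
    (hw : ∀ j, w j ∈ endsInZeros) {a : ℕ → Bool} (ha : IsConcat w a) :
    val β (cat [false] a) < 1 := by
  have hb : 0 < β := by linarith
  rw [val_cat_single h1]
  simp only [Bool.false_eq_true, if_false, zero_add]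
  rw [inv_mul_lt_iff₀ hb, mul_one]
  have hR : 1 / (β - 1) = β := by
    rw [div_eq_iff (by linarith)]
    linarith
  refine lt_of_le_of_ne ((val_le h1 _).trans hR.le) fun h4 => ?_
  have h6 := eq_true_of_val h1 (h4.trans hR.symm)
  obtain ⟨l, hl⟩ := hw 0
  have h7 := ha 1 l.length (by simp [block, hl])
  rw [h6] at h7
  simp [block, hl] at h7

theorem golden_step {β : ℝ} (h1 : 1 < β) (hβ : β ^ 2 = β + 1) {w : ℕ → List Bool}
    (hw : ∀ j, w j ∈ endsInZeros) {a : ℕ → Bool} (ha : IsConcat w a) (j : ℕ) :
    normalise β (cat [false] a) = cat (block (fun i => outWord β (w i)) j)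
      (normalise β (cat [false] (sh (block w j).length a))) := by
  induction j with
  | zero => simp [block, cat_nil, sh_zero]
  | succ j ih =>
    rw [ih]
    simp only [block]
    rw [cat_append]
    congr 1
    have hs : Starts (w j) (sh (block w j).length a) := by
      have := ha (j + 1)
      simp only [block] at this
      exact (starts_append.1 this).2
    obtain ⟨l, hl⟩ := hw j
    have hshift : sh (w j).length (sh (block w j).length a) =
        sh (block w (j + 1)).length a := by
      simp only [block, List.length_append]
      exact sh_add _ _ _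
    have hval : val β (cat [false] (sh (block w (j + 1)).length a)) < 1 :=
      val_lt_of_concat h1 hβ (fun i => hw (j + 1 + i)) (ha.shift (j + 1))
    have := step_word h1 hβ l hval
    rw [← hl, ← hshift, ← eq_cat_of_starts hs] at this
    rw [this, hshift]
    simp only [block]

theorem coin_cylinder (l : List Bool) : coin {a | Starts l a} = (2⁻¹ : ENNReal) ^ l.length := by
  classical
  have e : {a : ℕ → Bool | Starts l a} =
      Set.pi (Finset.range l.length : Finset ℕ) fun i => {l.getD i false} := by
    ext a
    simp only [Set.mem_ofPred_eq, Set.mem_pi, Finset.coe_range, Set.mem_Iio,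
      Set.mem_singleton_iff]
    constructor
    · intro h i hi
      rw [h i hi, List.getD_eq_getElem _ _ hi]
    · intro h i hi
      rw [h i hi, List.getD_eq_getElem _ _ hi]
  rw [e]
  unfold coin
  rw [Measure.infinitePi_pi _ fun i _ => measurableSet_singleton _]
  have : ∀ i ∈ Finset.range l.length,
      (PMF.uniformOfFintype Bool).toMeasure {l.getD i false} = (2⁻¹ : ENNReal) := by
    intro i _
    rw [PMF.toMeasure_apply_singleton _ _ (measurableSet_singleton _),
      PMF.uniformOfFintype_apply]
    simp
  rw [Finset.prod_congr rfl this, Finset.prod_const, Finset.card_range]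

/-- words built from the pairs `01`, `10`, `11` -/
def pairWords : ℕ → Finset (List Bool)
  | 0 => {[]}
  | n + 1 => (pairWords n).biUnion fun l =>
      {l ++ [false, true], l ++ [true, false], l ++ [true, true]}

theorem card_pairWords (n : ℕ) : (pairWords n).card ≤ 3 ^ n := by
  induction n with
  | zero => simp [pairWords]
  | succ n ih =>
    simp only [pairWords]
    refine (Finset.card_biUnion_le_card_mul _ _ 3 fun l _ => Finset.card_le_three).trans ?_
    rw [pow_succ]
    exact Nat.mul_le_mul_right 3 ih

theorem length_pairWords (n : ℕ) : ∀ l ∈ pairWords n, l.length = 2 * n := by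
  induction n with
  | zero => simp [pairWords]
  | succ n ih =>
    intro l hl
    simp only [pairWords, Finset.mem_biUnion, Finset.mem_insert, Finset.mem_singleton] at hl
    obtain ⟨l', hl', h⟩ := hl
    have := ih l' hl'
    rcases h with rfl | rfl | rfl <;> simp [this] <;> ring

theorem starts_pairWords {a : ℕ → Bool} (ha : ¬ ∃ ω ∈ endsInZeros, Starts ω a) (n : ℕ) :
    ∃ l ∈ pairWords n, Starts l a := by
  induction n with
  | zero => exact ⟨[], by simp [pairWords], starts_nil a⟩
  | succ n ih =>
    obtain ⟨l, hl, hs⟩ := ih
    have key : ∀ x y : Bool, a l.length = x → a (l.length + 1) = y → Starts (l ++ [x, y]) a := by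
      intro x y hx hy
      refine starts_append.2 ⟨hs, fun i hi => ?_⟩
      simp only [List.length_cons, List.length_nil] at hi
      unfold sh
      interval_cases i
      · simpa using hx
      · simpa using hy
    have hmem : ∀ x y : Bool, (x, y) ≠ (false, false) → l ++ [x, y] ∈ pairWords (n + 1) := by
      intro x y hxy
      simp only [pairWords, Finset.mem_biUnion, Finset.mem_insert, Finset.mem_singleton]
      refine ⟨l, hl, ?_⟩
      rcases x with _ | _ <;> rcases y with _ | _ <;> simp_all
    refine ⟨l ++ [a l.length, a (l.length + 1)], hmem _ _ fun h => ha ?_, key _ _ rfl rfl⟩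
    rw [Prod.mk.injEq] at h
    exact ⟨l ++ [false, false], ⟨l, rfl⟩, key _ _ h.1 h.2⟩

theorem coin_cover : coin {a | ∃ ω ∈ endsInZeros, Starts ω a}ᶜ = 0 := by
  have hle : ∀ n : ℕ, coin {a | ∃ ω ∈ endsInZeros, Starts ω a}ᶜ ≤
      ((3 : ENNReal) * (2⁻¹) ^ 2) ^ n := by
    intro n
    have hsub : {a | ∃ ω ∈ endsInZeros, Starts ω a}ᶜ ⊆
        ⋃ l ∈ pairWords n, {a | Starts l a} := by
      intro a ha
      obtain ⟨l, hl, hs⟩ := starts_pairWords (a := a) ha n
      exact Set.mem_biUnion hl hs
    calc coin {a | ∃ ω ∈ endsInZeros, Starts ω a}ᶜ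
        ≤ coin (⋃ l ∈ pairWords n, {a | Starts l a}) := measure_mono hsub
      _ ≤ ∑ l ∈ pairWords n, coin {a | Starts l a} := measure_biUnion_finset_le _ _
      _ = ∑ l ∈ pairWords n, (2⁻¹ : ENNReal) ^ (2 * n) :=
          Finset.sum_congr rfl fun l hl => by rw [coin_cylinder, length_pairWords n l hl]
      _ = (pairWords n).card * (2⁻¹ : ENNReal) ^ (2 * n) := by
          rw [Finset.sum_const, nsmul_eq_mul]
      _ ≤ (3 : ENNReal) ^ n * (2⁻¹ : ENNReal) ^ (2 * n) := by
          refine mul_le_mul_left ?_ _
          exact_mod_cast card_pairWords n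
      _ = ((3 : ENNReal) * (2⁻¹) ^ 2) ^ n := by rw [mul_pow, ← pow_mul]
  have hlt : (3 : ENNReal) * (2⁻¹) ^ 2 < 1 := by
    rw [← ENNReal.inv_pow, ← div_eq_mul_inv]
    refine ENNReal.div_lt_of_lt_mul ?_
    norm_num
  have ht := ENNReal.tendsto_pow_atTop_nhds_zero_of_lt_one hlt
  exact le_antisymm (ge_of_tendsto' ht hle) zero_le

/-- **the golden mean has the block property**, with `u = 0` and `v` empty -/
theorem golden_block {β : ℝ} (h1 : 1 < β) (hβ : β ^ 2 = β + 1) : BlockProperty β := by
  refine ⟨endsInZeros, outWord β, [false], [], ?_, coin_cover, ?_, ?_⟩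
  · rintro ω ⟨l, rfl⟩
    simp
  · intro ω _
    exact List.length_ofFn
  · intro w hw a ha
    refine ⟨normalise β (cat [false] a), fun j => ?_, (cat_nil _).symm⟩
    rw [golden_step h1 hβ hw ha j]
    exact starts_cat _ _

end Pool.Agent.FWP39
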