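import Pool.Agent.FWP39.Basic

open Filter MeasureTheory Topology

noncomputable section

namespace Pool.Agent.FWP39

/-! ### The function `F` and its constant differences -/

/-- `F : [0,R] → ℂ` conjugates the digit maps `x ↦ (x+d)/β` to `y ↦ (y+d)/γ` -/
structure Sys (β : ℝ) (γ : ℂ) (R : ℝ) (F : ℝ → ℂ) : Prop where
  h1 : 1 < β
  h2 : β < 2
  hR : R * (β - 1) = 1
  hγ : 1 < ‖γ‖
  f0 : ∀ x, 0 ≤ x → x ≤ R → F (x / β) = F x / γ
  f1 : ∀ x, 0 ≤ x → x ≤ R → F ((x + 1) / β) = (F x + 1) / γ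
  bd : ∃ M, ∀ x, 0 ≤ x → x ≤ R → ‖F x‖ ≤ M

/-- translation by `t` changes `F` by the constant `c` -/
def TSc (R : ℝ) (F : ℝ → ℂ) (t : ℝ) (c : ℂ) : Prop :=
  0 < t ∧ t < R ∧ ∀ y, 0 ≤ y → y + t ≤ R → F (y + t) = F y + c

namespace Sys

variable {β : ℝ} {γ : ℂ} {R : ℝ} {F : ℝ → ℂ}

theorem R1 (S : Sys β γ R F) : 1 < R := by
  have := S.h1
  have := S.h2
  have := S.hR
  by_contra h
  nlinarith

theorem bR (S : Sys β γ R F) : β * R = R + 1 := by
  have := S.hR
  linarith

theorem b0 (S : Sys β γ R F) : 0 < β := by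
  have := S.h1
  linarith

theorem g0 (S : Sys β γ R F) : γ ≠ 0 := by
  intro h
  have := S.hγ
  rw [h, norm_zero] at this
  linarith

theorem g1 (S : Sys β γ R F) : γ ≠ 1 := by
  intro h
  have := S.hγ
  rw [h, norm_one] at this
  linarith

/-- the first functional equation, multiplied out -/
theorem f0' (S : Sys β γ R F) {x : ℝ} (h0 : 0 ≤ x) (hx : β * x ≤ R) :
    F (β * x) = γ * F x := by
  have := S.f0 (β * x) (by have := S.b0; positivity) hx
  rw [mul_div_cancel_left₀ _ S.b0.ne'] at this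
  rw [this, mul_div_cancel₀ _ S.g0]

/-- the second functional equation, multiplied out -/
theorem f1' (S : Sys β γ R F) {x : ℝ} (h0 : 1 ≤ β * x) (hx : x ≤ R) :
    F (β * x - 1) = γ * F x - 1 := by
  have h : β * x - 1 ≤ R := by
    have := mul_le_mul_of_nonneg_left hx S.b0.le
    rw [S.bR] at this
    linarith
  have := S.f1 (β * x - 1) (by linarith) h
  rw [sub_add_cancel, mul_div_cancel_left₀ _ S.b0.ne'] at this
  rw [this, mul_div_cancel₀ _ S.g0]
  ring

theorem F0 (S : Sys β γ R F) : F 0 = 0 := by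
  have := S.f0' le_rfl (x := 0) (by rw [mul_zero]; linarith [S.R1])
  rw [mul_zero] at this
  have h : (γ - 1) * F 0 = 0 := by linear_combination -this
  exact (mul_eq_zero.1 h).resolve_left (sub_ne_zero.2 S.g1)

theorem F1 (S : Sys β γ R F) : F 1 = 1 := by
  have e1 := S.f0 1 zero_le_one S.R1.le
  have e2 := S.f1 0 le_rfl (by linarith [S.R1])
  rw [S.F0, zero_add, zero_add, e1] at e2
  have := S.g0
  field_simp at e2
  exact e2

theorem one_mem (S : Sys β γ R F) : TSc R F 1 1 := by
  refine ⟨one_pos, S.R1, fun y h0 h => ?_⟩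
  have e1 := S.f0 (y + 1) (by linarith) h
  have e2 := S.f1 y h0 (by linarith)
  rw [e1] at e2
  have := S.g0
  field_simp at e2
  exact e2

theorem mul (S : Sys β γ R F) {t : ℝ} {c : ℂ} (h : TSc R F t c) (ht : β * t < R) :
    TSc R F (β * t) (γ * c) := by
  obtain ⟨h0, h1, h2⟩ := h
  have hb := S.b0
  refine ⟨by positivity, ht, fun y h3 h4 => ?_⟩
  have e : β * (y / β + t) = y + β * t := by field_simp
  have e' : β * (y / β) = y := by field_simp
  have h5 : y / β + t ≤ R := by
    by_contra hc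
    rw [not_le] at hc
    have := mul_lt_mul_of_pos_left hc hb
    rw [e, S.bR] at this
    linarith
  have k1 := h2 (y / β) (by positivity) h5
  have k2 := S.f0' (x := y / β + t) (by positivity) (by rw [e]; exact h4)
  have k3 := S.f0' (x := y / β) (by positivity) (by rw [e']; nlinarith)
  rw [e] at k2
  rw [e'] at k3
  rw [k2, k3, k1]
  ring

theorem mul_sub (S : Sys β γ R F) {t : ℝ} {c : ℂ} (h : TSc R F t c) (ht : 1 < β * t) :
    TSc R F (β * t - 1) (γ * c - 1) := by
  obtain ⟨h0, h1, h2⟩ := h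
  have hb := S.b0
  have h6 : β * t < R + 1 := by rw [← S.bR]; exact mul_lt_mul_of_pos_left h1 hb
  refine ⟨by linarith, by linarith, fun y h3 h4 => ?_⟩
  have e : β * (y / β + t) - 1 = y + (β * t - 1) := by field_simp; ring
  have e' : β * (y / β) = y := by field_simp
  have h5 : y / β + t ≤ R := by
    by_contra hc
    rw [not_le] at hc
    have := mul_lt_mul_of_pos_left hc hb
    rw [S.bR] at this
    linarith
  have k1 := h2 (y / β) (by positivity) h5
  have k2 := S.f1' (x := y / β + t) (by rw [mul_add, e']; linarith) h5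
  have k3 := S.f0' (x := y / β) (by positivity) (by rw [e']; linarith)
  rw [e] at k2
  rw [e'] at k3
  rw [k2, k3, k1]
  ring

theorem one_sub (S : Sys β γ R F) {t : ℝ} {c : ℂ} (h : TSc R F t c) (ht : β * t < 1) :
    TSc R F (1 - β * t) (1 - γ * c) := by
  obtain ⟨h0, h1, h2⟩ := h
  have hb := S.b0
  have hbt : 0 < β * t := by positivity
  refine ⟨by linarith, by linarith [S.R1], fun y h3 h4 => ?_⟩
  set v := (y + (1 - β * t)) / β with hv
  have e : β * v = y + (1 - β * t) := by rw [hv]; field_simp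
  have e' : β * (v + t) - 1 = y := by rw [mul_add, e]; ring
  have hv0 : 0 ≤ v := by
    rw [hv]
    refine div_nonneg (by linarith) hb.le
  have h5 : v + t ≤ R := by
    by_contra hc
    rw [not_le] at hc
    have := mul_lt_mul_of_pos_left hc hb
    rw [S.bR] at this
    have : β * (v + t) = y + 1 := by linarith
    linarith
  have k1 := h2 v hv0 h5
  have k2 := S.f1' (x := v + t) (by linarith) h5
  have k3 := S.f0' (x := v) hv0 (by rw [e]; exact h4)
  rw [e'] at k2
  rw [e] at k3
  rw [k2, k3, k1]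
  ring

theorem sub (_S : Sys β γ R F) {t₁ t₂ : ℝ} {c₁ c₂ : ℂ} (H₁ : TSc R F t₁ c₁)
    (H₂ : TSc R F t₂ c₂) (h : t₂ < t₁) (h' : t₁ + t₂ ≤ R) : TSc R F (t₁ - t₂) (c₁ - c₂) := by
  obtain ⟨a0, a1, a2⟩ := H₁
  obtain ⟨b0, b1, b2⟩ := H₂
  refine ⟨by linarith, by linarith, fun y h3 h4 => ?_⟩
  rcases le_or_gt t₂ y with hy | hy
  · have k1 := a2 (y - t₂) (by linarith) (by linarith)
    have k2 := b2 (y - t₂) (by linarith) (by linarith)
    rw [sub_add_cancel] at k2
    have e : y - t₂ + t₁ = y + (t₁ - t₂) := by ring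
    rw [e] at k1
    rw [k1, k2]
    ring
  · have k1 := a2 y h3 (by linarith)
    have k2 := b2 (y + (t₁ - t₂)) (by linarith) (by linarith)
    have e : y + (t₁ - t₂) + t₂ = y + t₁ := by ring
    rw [e, k1] at k2
    linear_combination -k2

theorem div (S : Sys β γ R F) {t : ℝ} {c : ℂ} (H : TSc R F t c) (h : t ≤ R - 1) :
    TSc R F (t / β) (c / γ) := by
  obtain ⟨h0, h1, h2⟩ := H
  have hb := S.b0
  have hlt : t / β < t := div_lt_self h0 S.h1
  have g := S.g0
  refine ⟨by positivity, by linarith, fun y h3 h4 => ?_⟩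
  rcases le_or_gt (β * y + t) R with hy | hy
  · have k1 := h2 (β * y) (by positivity) hy
    have k2 := S.f0 (β * y + t) (by positivity) hy
    have k3 := S.f0 (β * y) (by positivity) (by linarith)
    have e : (β * y + t) / β = y + t / β := by field_simp
    rw [e] at k2
    rw [mul_div_cancel_left₀ _ hb.ne'] at k3
    rw [k2, k3, k1]
    ring
  · have hy1 : 1 ≤ β * y := by linarith
    have hbt : β * (y + t / β) = β * y + t := by field_simp
    have hy2 : β * y - 1 + t ≤ R := by
      have := mul_le_mul_of_nonneg_left h4 hb.le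
      rw [hbt, S.bR] at this
      linarith
    have k1 := h2 (β * y - 1) (by linarith) hy2
    have k2 := S.f1 (β * y - 1 + t) (by linarith) hy2
    have k3 := S.f1 (β * y - 1) (by linarith) (by linarith)
    have e : (β * y - 1 + t + 1) / β = y + t / β := by field_simp; ring
    rw [e] at k2
    rw [sub_add_cancel, mul_div_cancel_left₀ _ hb.ne'] at k3
    rw [k2, k3, k1]
    ring

theorem div_pow (S : Sys β γ R F) {t : ℝ} {c : ℂ} (H : TSc R F t c) (h : t ≤ R - 1) (n : ℕ) :
    TSc R F (t / β ^ n) (c / γ ^ n) := by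
  induction n with
  | zero => simpa using H
  | succ n ih =>
    have h3 : t / β ^ n ≤ t := div_le_self H.1.le (one_le_pow₀ S.h1.le)
    have := S.div ih (h3.trans h)
    rw [div_div, div_div, ← pow_succ, ← pow_succ] at this
    exact this

theorem multiples (_S : Sys β γ R F) {t : ℝ} {c : ℂ} (H : TSc R F t c) (k : ℕ) {y : ℝ}
    (h0 : 0 ≤ y) (h : y + k * t ≤ R) : F (y + k * t) = F y + k * c := by
  induction k with
  | zero => simp
  | succ k ih =>
    have ht := H.1
    push_cast at h ⊢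
    have h3 : y + k * t + t ≤ R := by linarith
    have h4 : (0 : ℝ) ≤ k * t := by positivity
    have k1 := H.2.2 (y + k * t) (by linarith) h3
    rw [ih (by linarith)] at k1
    have e : y + (k + 1) * t = y + k * t + t := by ring
    rw [e, k1]
    ring

theorem norm_small (S : Sys β γ R F) {M : ℝ} (hM : ∀ x, 0 ≤ x → x ≤ R → ‖F x‖ ≤ M) (n : ℕ)
    {y : ℝ} (h0 : 0 ≤ y) (h : y * β ^ n ≤ R) : ‖F y‖ ≤ M / ‖γ‖ ^ n := by
  have hb := S.b0
  induction n generalizing y with
  | zero => simpa using hM y h0 (by simpa using h)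
  | succ n ih =>
    have hgn : 0 < ‖γ‖ := by linarith [S.hγ]
    have h3 : (β * y) * β ^ n ≤ R := by rw [pow_succ] at h; linarith
    have h3' : β * y ≤ R := by
      refine le_trans ?_ h3
      exact le_mul_of_one_le_right (by positivity) (one_le_pow₀ S.h1.le)
    have k1 := ih (y := β * y) (by positivity) h3
    rw [S.f0' h0 h3', norm_mul] at k1
    rw [pow_succ, ← div_div, le_div_iff₀ hgn]
    linarith

/-- a small translation forces `γ = β` -/
theorem eq_of_small (S : Sys β γ R F) {t : ℝ} {c : ℂ} (H : TSc R F t c) (h : t ≤ R - 1) :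
    γ = β := by
  obtain ⟨M, hM⟩ := S.bd
  have hb := S.b0
  have ht := H.1
  have hg := S.g0
  have hgn : 0 < ‖γ‖ := by linarith [S.hγ]
  have htC : (t : ℂ) ≠ 0 := by exact_mod_cast ht.ne'
  set q : ℂ := β / γ with hq
  have key : ∀ n : ℕ, ‖(c / t) * q ^ n - 1‖ ≤ (‖c‖ + M) * (‖γ‖⁻¹) ^ n := by
    intro n
    have Hn := S.div_pow H h n
    set s := t / β ^ n with hs
    have hs0 : 0 < s := Hn.1
    set k := ⌊1 / s⌋₊ with hk
    have hk1 : (k : ℝ) ≤ 1 / s := Nat.floor_le (by positivity)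
    have hk2 : 1 / s < k + 1 := Nat.lt_floor_add_one _
    have hk3 : k * s ≤ 1 := by rwa [le_div_iff₀ hs0] at hk1
    have hk4 : 1 < k * s + s := by rw [div_lt_iff₀ hs0] at hk2; linarith
    have e1 := S.multiples Hn k (y := 1 - k * s) (by linarith) (by linarith [S.R1])
    rw [sub_add_cancel, S.F1] at e1
    have e2 : ‖F (1 - k * s)‖ ≤ M / ‖γ‖ ^ n := by
      refine S.norm_small hM n (by linarith) ?_
      have h5 : 1 - k * s ≤ s := by linarith
      have h6 : s * β ^ n = t := by rw [hs]; field_simp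
      have h7 : (1 - k * s) * β ^ n ≤ s * β ^ n := mul_le_mul_of_nonneg_right h5 (by positivity)
      rw [h6] at h7
      exact h7.trans H.2.1.le
    have e3 : (c / t) * q ^ n - 1 = (c / γ ^ n) * ((1 / s - k : ℝ) : ℂ) - F (1 - k * s) := by
      have e4 : F (1 - k * s) = 1 - k * (c / γ ^ n) := by rw [e1]; ring
      have e5 : ((1 / s : ℝ) : ℂ) = β ^ n / t := by
        rw [hs]; push_cast; field_simp
      rw [e4, Complex.ofReal_sub, e5, hq, _root_.div_pow]
      push_cast
      field_simp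
      ring
    rw [e3]
    refine (norm_sub_le _ _).trans ?_
    have e6 : ‖(c / γ ^ n) * ((1 / s - k : ℝ) : ℂ)‖ ≤ ‖c‖ * (‖γ‖⁻¹) ^ n := by
      rw [norm_mul, norm_div, norm_pow, Complex.norm_real, Real.norm_eq_abs, inv_pow,
        ← div_eq_mul_inv]
      refine mul_le_of_le_one_right (by positivity) ?_
      rw [abs_le]
      constructor <;> linarith
    have e7 : M / ‖γ‖ ^ n = M * (‖γ‖⁻¹) ^ n := by rw [inv_pow, div_eq_mul_inv]
    rw [e7] at e2
    linarith
  have ht1 : Tendsto (fun n : ℕ => (‖c‖ + M) * (‖γ‖⁻¹) ^ n) atTop (𝓝 ((‖c‖ + M) * 0)) :=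
    (tendsto_pow_atTop_nhds_zero_of_lt_one (by positivity)
      (inv_lt_one_of_one_lt₀ S.hγ)).const_mul _
  rw [mul_zero] at ht1
  have ht2 : Tendsto (fun n : ℕ => (c / t) * q ^ n) atTop (𝓝 1) := by
    rw [tendsto_iff_norm_sub_tendsto_zero]
    exact squeeze_zero (fun _ => norm_nonneg _) key ht1
  have ht3 : Tendsto (fun n : ℕ => (c / t) * q ^ (n + 1)) atTop (𝓝 1) :=
    ht2.comp (tendsto_add_atTop_nat 1)
  have ht4 : Tendsto (fun n : ℕ => q * ((c / t) * q ^ n)) atTop (𝓝 (q * 1)) := ht2.const_mul _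
  have ht5 : q * 1 = 1 := by
    refine tendsto_nhds_unique ht4 (ht3.congr fun n => ?_)
    rw [pow_succ]; ring
  rw [mul_one, hq, div_eq_one_iff_eq hg] at ht5
  exact ht5.symm

end Sys

theorem geom_one {u : ℝ} {m : ℕ} (hu : u ≠ 1) (h : 2 * u - 1 = u ^ (m + 1)) :
    ∑ i ∈ Finset.range m, u ^ (i + 1) = 1 := by
  have e := geom_sum_mul u m
  have e1 : ∑ i ∈ Finset.range m, u ^ (i + 1) = (∑ i ∈ Finset.range m, u ^ i) * u := by
    rw [Finset.sum_mul]
    exact Finset.sum_congr rfl fun i _ => pow_succ u i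
  rw [e1]
  have hu1 : u - 1 ≠ 0 := sub_ne_zero.2 hu
  have : ((∑ i ∈ Finset.range m, u ^ i) * u) * (u - 1) = 1 * (u - 1) := by
    rw [pow_succ] at h
    linear_combination u * e - h
  exact mul_right_cancel₀ hu1 this

/-- the multinacci case -/
theorem multinacci {β : ℝ} {γ : ℂ} (h1 : 1 < β) (hγ : 1 < ‖γ‖) {m : ℕ}
    (hm : β ^ m * (2 - β) = 1) (hm' : γ ^ m * (2 - γ) = 1) : γ = β := by
  set r := ‖γ‖ with hr
  have hr0 : 0 < r := by linarith
  have hb0 : 0 < β := by linarith
  have hm0 : m ≠ 0 := by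
    rintro rfl
    rw [pow_zero, one_mul] at hm
    linarith
  have k1 : r ^ m * ‖2 - γ‖ = 1 := by
    rw [hr, ← norm_pow, ← norm_mul, hm', norm_one]
  have k2 : 2 - r ≤ ‖2 - γ‖ := by
    have := norm_sub_norm_le (2 : ℂ) γ
    rw [Complex.norm_ofNat] at this
    exact this
  have hg1 : γ - 1 ≠ 0 := by
    intro h
    rw [sub_eq_zero] at h
    rw [hr, h, norm_one] at hγ
    linarith
  have k3 : γ ^ m = ∑ i ∈ Finset.range m, γ ^ i := by
    have e := geom_sum_mul γ m
    refine mul_right_cancel₀ hg1 ?_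
    rw [e]
    linear_combination -hm'
  have k4 : r ^ m ≤ ∑ i ∈ Finset.range m, r ^ i := by
    rw [hr, ← norm_pow, k3]
    refine (norm_sum_le _ _).trans (le_of_eq ?_)
    exact Finset.sum_congr rfl fun i _ => norm_pow _ _
  have k5 : 1 ≤ r ^ m * (2 - r) := by
    have e := geom_sum_mul r m
    have : r ^ m * (r - 1) ≤ r ^ m - 1 := by
      rw [← e]
      exact mul_le_mul_of_nonneg_right k4 (by linarith)
    linarith
  have hrm : 0 < r ^ m := by positivity
  have k6 : ‖2 - γ‖ = 2 - r := by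
    refine le_antisymm ?_ k2
    by_contra h
    rw [not_le] at h
    have := mul_lt_mul_of_pos_left h hrm
    linarith
  have k7 : r ^ m * (2 - r) = 1 := by rw [← k6]; exact k1
  -- `γ = r`
  have k8 : γ.re = r := by
    have e1 : ‖2 - γ‖ ^ 2 = (2 - γ.re) ^ 2 + γ.im ^ 2 := by
      rw [Complex.sq_norm, Complex.normSq_apply]
      simp only [Complex.sub_re, Complex.sub_im, Complex.re_ofNat, Complex.im_ofNat]
      ring
    have e2 : r ^ 2 = γ.re ^ 2 + γ.im ^ 2 := by
      rw [hr, Complex.sq_norm, Complex.normSq_apply]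
      ring
    rw [k6] at e1
    linarith
  have k9 : γ.im = 0 := by
    have e2 : r ^ 2 = γ.re ^ 2 + γ.im ^ 2 := by
      rw [hr, Complex.sq_norm, Complex.normSq_apply]
      ring
    rw [k8] at e2
    have : γ.im ^ 2 = 0 := by linarith
    exact pow_eq_zero_iff (two_ne_zero) |>.1 this
  have k10 : γ = (r : ℂ) := Complex.ext (by simpa using k8) (by simpa using k9)
  -- uniqueness
  have conv : ∀ x : ℝ, 1 < x → x ^ m * (2 - x) = 1 →
      ∑ i ∈ Finset.range m, (x⁻¹) ^ (i + 1) = 1 := by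
    intro x hx h
    have hx0 : x ≠ 0 := by positivity
    refine geom_one (inv_lt_one_of_one_lt₀ hx).ne ?_
    rw [inv_pow]
    field_simp
    rw [pow_succ]
    linear_combination x * h
  have c1 := conv r hγ k7
  have c2 := conv β h1 hm
  have hne : (Finset.range m).Nonempty := Finset.nonempty_range_iff.2 hm0
  have strict : ∀ x y : ℝ, 1 < x → x < y →
      ∑ i ∈ Finset.range m, (y⁻¹) ^ (i + 1) < ∑ i ∈ Finset.range m, (x⁻¹) ^ (i + 1) := by
    intro x y hx hxy
    have hx0 : 0 < x := by linarith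
    have hy0 : 0 < y := by linarith
    have : y⁻¹ < x⁻¹ := inv_strictAnti₀ hx0 hxy
    refine Finset.sum_lt_sum_of_nonempty hne fun i _ => ?_
    exact pow_lt_pow_left₀ this (by positivity) (Nat.succ_ne_zero i)
  have hrb : r = β := by
    rcases lt_trichotomy r β with h | h | h
    · have := strict r β hγ h; rw [c1, c2] at this; exact absurd this (lt_irrefl _)
    · exact h
    · have := strict β r h1 h; rw [c1, c2] at this; exact absurd this (lt_irrefl _)
  rw [k10, hrb]

open Polynomial in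
/-- **the rigidity statement**: `γ = β` -/
theorem Sys.eq {β : ℝ} {γ : ℂ} {R : ℝ} {F : ℝ → ℂ} (S : Sys β γ R F)
    (hp : ∀ p : ℤ[X], aeval β p = 0 → aeval γ p = 0) : γ = β := by
  by_cases hsm : ∃ t c, TSc R F t c ∧ t ≤ R - 1
  · obtain ⟨t, c, h, h'⟩ := hsm
    exact S.eq_of_small h h'
  have hb := S.b0
  have hb1 := S.h1
  have hb2 := S.h2
  have hR1 := S.R1
  have hbR := S.bR
  set TT : Set ℝ := {t | ∃ c, TSc R F t c} with hTT
  have hbig : ∀ t ∈ TT, R - 1 < t := by
    rintro t ⟨c, hc⟩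
    by_contra h
    exact hsm ⟨t, c, hc, not_lt.1 h⟩
  have hone : (1 : ℝ) ∈ TT := ⟨1, S.one_mem⟩
  have hbdd : BddBelow TT := ⟨R - 1, fun t ht => (hbig t ht).le⟩
  set τ := sInf TT with hτ
  have hτ1 : R - 1 ≤ τ := le_csInf ⟨1, hone⟩ fun t ht => (hbig t ht).le
  have hτle : ∀ t ∈ TT, τ ≤ t := fun t ht => csInf_le hbdd ht
  have hτ0 : 0 < τ := by linarith
  by_cases hc1 : ∃ t ∈ TT, β * t < 1
  · exfalso
    obtain ⟨t, ⟨c, hc⟩, ht⟩ := hc1
    have m1 : τ ≤ 1 - β * t := hτle _ ⟨_, S.one_sub hc ht⟩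
    have m2 : τ ≤ t := hτle _ ⟨c, hc⟩
    have m3 : τ * (1 + β) ≤ 1 := by nlinarith
    have m4 : τ < τ / (β - 1) := by
      rw [lt_div_iff₀ (by linarith)]
      nlinarith
    have m5 : τ < R / (1 + β) := by
      rw [lt_div_iff₀ (by linarith)]
      linarith
    obtain ⟨t', ⟨c', hc'⟩, ht'⟩ := exists_lt_of_csInf_lt ⟨1, hone⟩ (lt_min m4 m5)
    have m6 : t' * (β - 1) < τ := by
      have := lt_of_lt_of_le ht' (min_le_left _ _)
      rwa [lt_div_iff₀ (by linarith)] at this
    have m7 : t' * (1 + β) < R := by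
      have := lt_of_lt_of_le ht' (min_le_right _ _)
      rwa [lt_div_iff₀ (by linarith)] at this
    have ht0 := hc'.1
    have n1 := S.mul hc' (by linarith)
    have n2 := S.sub n1 hc' (by nlinarith) (by linarith)
    have := hτle _ ⟨_, n2⟩
    linarith
  · have hge : ∀ t ∈ TT, 1 ≤ β * t := by
      intro t ht
      by_contra h
      exact hc1 ⟨t, ht, not_le.1 h⟩
    have hm : ∃ m : ℕ, β ^ m * (R - 1) = R := by
      by_contra hno
      have hno' : ∀ m : ℕ, β ^ m * (R - 1) ≠ R := fun m hm => hno ⟨m, hm⟩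
      have hall : ∀ k : ℕ, R - β ^ k * (R - 1) ∈ TT := by
        intro k
        induction k with
        | zero => simpa using hone
        | succ k ih =>
          have h3 := hge _ ih
          obtain ⟨c, hc⟩ := ih
          have e : β * (R - β ^ k * (R - 1)) - 1 = R - β ^ (k + 1) * (R - 1) := by
            rw [pow_succ]; linear_combination hbR
          have h4 : 1 < β * (R - β ^ k * (R - 1)) := by
            refine lt_of_le_of_ne h3 fun h5 => ?_
            refine hno' (k + 1) ?_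
            rw [← h5, sub_self] at e
            linarith
          have := S.mul_sub hc h4
          rw [e] at this
          exact ⟨_, this⟩
      have hlim := tendsto_pow_atTop_atTop_of_one_lt hb1
      obtain ⟨k, hk⟩ := (hlim.eventually_ge_atTop (R / (R - 1))).exists
      have h6 := hbig _ (hall k)
      rw [div_le_iff₀ (by linarith)] at hk
      linarith
    obtain ⟨m, hm⟩ := hm
    have hmβ : β ^ m * (2 - β) = 1 := by
      have h7 : (R - 1) * (β - 1) = 2 - β := by linarith
      have h8 : β ^ m * (R - 1) * (β - 1) = R * (β - 1) := by rw [hm]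
      have h9 : R * (β - 1) = 1 := by linarith
      rw [h9, mul_assoc, h7] at h8
      exact h8
    have hpoly := hp (X ^ m * (2 - X) - 1) (by
      simp only [map_sub, map_mul, map_pow, aeval_X, map_one, map_ofNat]
      rw [hmβ, sub_self])
    simp only [map_sub, map_mul, map_pow, aeval_X, map_one, map_ofNat] at hpoly
    exact multinacci hb1 S.hγ hmβ (sub_eq_zero.1 hpoly)

end Pool.Agent.FWP39
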