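import Pool.Agent.FWP39.Core

open Filter MeasureTheory Topology

noncomputable section

namespace Pool.Agent.FWP39

/-! ### Words -/

theorem starts_nil (a : ℕ → Bool) : Starts [] a := fun i h => absurd h (Nat.not_lt_zero i)

theorem starts_append {l l' : List Bool} {a : ℕ → Bool} :
    Starts (l ++ l') a ↔ Starts l a ∧ Starts l' (sh l.length a) := by
  constructor
  · intro h
    refine ⟨fun i hi => ?_, fun i hi => ?_⟩
    · rw [h i (by rw [List.length_append]; omega), List.getElem_append_left hi]
    · unfold sh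
      rw [h (l.length + i) (by rw [List.length_append]; omega),
        List.getElem_append_right (by omega)]
      congr 1
      omega
  · rintro ⟨h1, h2⟩ i hi
    rw [List.length_append] at hi
    by_cases hl : i < l.length
    · rw [List.getElem_append_left hl, h1 i hl]
    · rw [List.getElem_append_right (by omega), ← h2 (i - l.length) (by omega)]
      unfold sh
      congr 1
      omega

theorem Starts.of_prefix {l l' : List Bool} (h : l <+: l') {a : ℕ → Bool} (ha : Starts l' a) :
    Starts l a := by
  obtain ⟨t, rfl⟩ := h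
  exact (starts_append.1 ha).1

theorem Starts.isPrefix {l l' : List Bool} {a : ℕ → Bool} (h : Starts l a) (h' : Starts l' a)
    (hl : l.length ≤ l'.length) : l <+: l' := by
  rw [List.prefix_iff_eq_take]
  refine List.ext_getElem ?_ fun i h1 h2 => ?_
  · rw [List.length_take]; omega
  · rw [List.getElem_take, ← h i h1, ← h' i (by omega)]

theorem block_add (w : ℕ → List Bool) (j k : ℕ) :
    block w (j + k) = block w j ++ block (fun i => w (j + i)) k := by
  induction k with
  | zero => simp [block]
  | succ k ih =>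
    rw [← add_assoc]
    simp only [block]
    rw [ih, List.append_assoc]

theorem le_block {w : ℕ → List Bool} (hw : ∀ j, w j ≠ []) (j : ℕ) : j ≤ (block w j).length := by
  induction j with
  | zero => exact Nat.zero_le _
  | succ j ih =>
    simp only [block, List.length_append]
    have := List.length_pos_iff.2 (hw j)
    omega

theorem block_prefix (w : ℕ → List Bool) {j k : ℕ} (h : j ≤ k) : block w j <+: block w k := by
  obtain ⟨m, rfl⟩ := Nat.exists_eq_add_of_le h
  rw [block_add]
  exact List.prefix_append _ _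

theorem exists_concat {w : ℕ → List Bool} (hw : ∀ j, w j ≠ []) : ∃ a, IsConcat w a := by
  have hlt : ∀ i, i < (block w (i + 1)).length := fun i => le_block hw (i + 1)
  refine ⟨fun i => (block w (i + 1))[i]'(hlt i), fun j i hi => ?_⟩
  show (block w (i + 1))[i]'(hlt i) = (block w j)[i]
  rcases le_total (i + 1) j with h | h
  · exact (block_prefix w h).getElem (hlt i)
  · exact ((block_prefix w h).getElem hi).symm

theorem IsConcat.unique {w : ℕ → List Bool} (hw : ∀ j, w j ≠ []) {a b : ℕ → Bool}
    (ha : IsConcat w a) (hb : IsConcat w b) : a = b := by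
  funext i
  have hlt : i < (block w (i + 1)).length := le_block hw (i + 1)
  rw [ha (i + 1) i hlt, hb (i + 1) i hlt]

theorem IsConcat.shift {w : ℕ → List Bool} {a : ℕ → Bool} (ha : IsConcat w a) (j : ℕ) :
    IsConcat (fun i => w (j + i)) (sh (block w j).length a) := by
  intro k
  have := ha (j + k)
  rw [block_add] at this
  exact (starts_append.1 this).2

theorem length_block_map {Ω : Set (List Bool)} {P : List Bool → List Bool}
    (hP : ∀ ω ∈ Ω, (P ω).length = ω.length) {w : ℕ → List Bool} (hw : ∀ j, w j ∈ Ω) (j : ℕ) :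
    (block (fun i => P (w i)) j).length = (block w j).length := by
  induction j with
  | zero => rfl
  | succ j ih => simp only [block, List.length_append, ih, hP _ (hw j)]

theorem block_range (w : ℕ → List Bool) (j : ℕ) : block w j = ((List.range j).map w).flatten := by
  induction j with
  | zero => rfl
  | succ j ih => simp [block, ih, List.range_succ]

/-! ### Cylinders have positive measure -/

theorem coin_cylinder_pos (l : List Bool) : 0 < coin {a | Starts l a} := by
  classical
  have e : {a : ℕ → Bool | Starts l a} =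
      Set.pi (Finset.range l.length : Finset ℕ) fun i => {l.getD i false} := by
    ext a
    simp only [Set.mem_ofPred_eq, Set.mem_pi, Finset.coe_range, Set.mem_Iio, Set.mem_singleton_iff]
    constructor
    · intro h i hi
      rw [h i hi, List.getD_eq_getElem _ _ hi]
    · intro h i hi
      rw [h i hi, List.getD_eq_getElem _ _ hi]
  rw [e]
  unfold coin
  rw [Measure.infinitePi_pi _ fun i _ => measurableSet_singleton _]
  refine (CanonicallyOrderedAdd.prod_pos (R := ENNReal)).2 fun i _ => ?_
  rw [PMF.toMeasure_apply_singleton _ _ (measurableSet_singleton _)]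
  rw [PMF.uniformOfFintype_apply]
  simp

/-! ### Density -/

theorem exists_cover {Ω : Set (List Bool)} (hΩ : ∀ ω ∈ Ω, ω ≠ [])
    (hcov : coin {a | ∃ ω ∈ Ω, Starts ω a}ᶜ = 0) (n : ℕ) : ∀ l : List Bool, l.length ≤ n →
      ∃ L : List (List Bool), (∀ ω ∈ L, ω ∈ Ω) ∧ l <+: L.flatten := by
  induction n with
  | zero =>
    intro l hl
    refine ⟨[], by simp, ?_⟩
    rw [List.length_eq_zero_iff.1 (Nat.le_zero.1 hl)]
    exact List.nil_prefix
  | succ n ih =>
    intro l hl
    obtain ⟨a, ha, ω, hω, haω⟩ : ∃ a, Starts l a ∧ ∃ ω ∈ Ω, Starts ω a := by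
      by_contra h
      have hsub : {a | Starts l a} ⊆ {a | ∃ ω ∈ Ω, Starts ω a}ᶜ :=
        fun a ha hω => h ⟨a, ha, hω⟩
      have := measure_mono_null hsub hcov
      exact (coin_cylinder_pos l).ne' this
    rcases le_total l.length ω.length with h | h
    · refine ⟨[ω], by simpa using hω, ?_⟩
      simpa using ha.isPrefix haω h
    · obtain ⟨l', rfl⟩ := haω.isPrefix ha h
      have hpos := List.length_pos_iff.2 (hΩ ω hω)
      rw [List.length_append] at hl
      obtain ⟨L, hL, hpre⟩ := ih l' (by omega)
      refine ⟨ω :: L, ?_, ?_⟩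
      · intro x hx
        rcases List.mem_cons.1 hx with rfl | hx
        · exact hω
        · exact hL x hx
      · rw [List.flatten_cons]
        exact (List.prefix_append_right_inj ω).2 hpre

theorem exists_starts {Ω : Set (List Bool)} (hΩ : ∀ ω ∈ Ω, ω ≠ [])
    (hcov : coin {a | ∃ ω ∈ Ω, Starts ω a}ᶜ = 0) (l : List Bool) :
    ∃ (w : ℕ → List Bool) (a : ℕ → Bool), (∀ j, w j ∈ Ω) ∧ IsConcat w a ∧ Starts l a := by
  obtain ⟨ω₀, hω₀⟩ : ∃ ω, ω ∈ Ω := by
    by_contra h
    have hsub : {a | Starts [] a} ⊆ {a | ∃ ω ∈ Ω, Starts ω a}ᶜ :=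
      fun a _ hω => h ⟨hω.choose, hω.choose_spec.1⟩
    exact (coin_cylinder_pos []).ne' (measure_mono_null hsub hcov)
  obtain ⟨L, hL, hpre⟩ := exists_cover hΩ hcov l.length l le_rfl
  set w : ℕ → List Bool := fun j => L.getD j ω₀ with hw
  have hwΩ : ∀ j, w j ∈ Ω := by
    intro j
    rw [hw]
    by_cases hj : j < L.length
    · simp only [List.getD_eq_getElem _ _ hj]
      exact hL _ (List.getElem_mem hj)
    · simp only [List.getD_eq_default _ _ (not_lt.1 hj)]
      exact hω₀
  obtain ⟨a, ha⟩ := exists_concat fun j => hΩ _ (hwΩ j)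
  refine ⟨w, a, hwΩ, ha, ?_⟩
  have hb : block w L.length = L.flatten := by
    rw [block_range]
    congr 1
    refine List.ext_getElem (by simp) fun i h1 h2 => ?_
    simp only [List.getElem_map, List.getElem_range, hw]
    exact List.getD_eq_getElem _ _ h2
  have := ha L.length
  rw [hb] at this
  exact this.of_prefix hpre

/-! ### Returns -/

theorem sh_cat (l : List Bool) (a : ℕ → Bool) : sh l.length (cat l a) = a := by
  funext i
  unfold sh cat
  rw [dif_neg (by omega)]
  congr 1
  omega

theorem sh_cat_add (l : List Bool) (a : ℕ → Bool) (n : ℕ) :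
    sh (n + l.length) (cat l a) = sh n a := by
  conv_rhs => rw [← sh_cat l a]
  rw [sh_add, add_comm]

theorem agree_cat (l : List Bool) (a b : ℕ → Bool) : Agree l.length (cat l a) (cat l b) := by
  intro i hi
  unfold cat
  rw [dif_pos hi, dif_pos hi]

/-- the value of a word -/
def pv (β : ℝ) (l : List Bool) : ℝ := pre β (cat l fun _ => false) l.length

theorem val_pre {β : ℝ} (h1 : 1 < β) (a : ℕ → Bool) (n : ℕ) :
    val β a = pre β a n + (β⁻¹) ^ n * val β (sh n a) := val_split h1 a n

theorem val_cat {β : ℝ} (h1 : 1 < β) (l : List Bool) (a : ℕ → Bool) :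
    val β (cat l a) = pv β l + (β⁻¹) ^ l.length * val β a := by
  rw [val_pre h1 (cat l a) l.length, sh_cat]
  congr 1
  unfold pv pre
  exact Finset.sum_congr rfl fun i hi => by
    rw [agree_cat l a (fun _ => false) i (Finset.mem_range.1 hi)]

theorem returns_of_concat {β : ℝ} (h1 : 1 < β) (h2 : β < 2) {Ω : Set (List Bool)}
    {P : List Bool → List Bool} {u v : List Bool} (hΩ : ∀ ω ∈ Ω, ω ≠ [])
    (hP : ∀ ω ∈ Ω, (P ω).length = ω.length)
    (hmain : ∀ w : ℕ → List Bool, (∀ j, w j ∈ Ω) → ∀ a, IsConcat w a →
      ∃ b, IsConcat (fun j => P (w j)) b ∧ normalise β (cat u a) = cat v b)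
    {w : ℕ → List Bool} (hw : ∀ j, w j ∈ Ω) {a : ℕ → Bool} (ha : IsConcat w a) :
    Returns β (cat u a) := by
  have hb0 : β ≠ 0 := by positivity
  have hPne : ∀ ω ∈ Ω, P ω ≠ [] := by
    intro ω hω h
    have := hP ω hω
    rw [h] at this
    exact hΩ ω hω (List.length_eq_zero_iff.1 this.symm)
  obtain ⟨b, hb, hnb⟩ := hmain w hw a ha
  refine ⟨u.length, v.length, pv β u - pv β v, ?_⟩
  rw [frequently_atTop]
  intro N
  refine ⟨(block w N).length, le_block (fun j => hΩ _ (hw j)) N, ?_⟩
  set n := (block w N).length with hn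
  obtain ⟨b', hb', hnb'⟩ := hmain (fun i => w (N + i)) (fun i => hw _) (sh n a) (ha.shift N)
  have hbb : b' = sh n b := by
    refine hb'.unique (fun j => hPne _ (hw _)) ?_
    have := hb.shift N
    rw [length_block_map hP hw] at this
    exact this
  rw [hbb] at hnb'
  have m := fun a => And.intro (val_nonneg h1 a) (val_le h1 a)
  have e1 : val β (cat v b) = val β (cat u a) := by
    rw [← hnb]
    exact val_greedy h1 h2 (m _).1 (m _).2
  have e2 : val β (cat v (sh n b)) = val β (cat u (sh n a)) := by
    rw [← hnb']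
    exact val_greedy h1 h2 (m _).1 (m _).2
  have e3 := val_pre h1 (cat u a) (n + u.length)
  have e4 := val_pre h1 (cat v b) (n + v.length)
  rw [sh_cat_add] at e3 e4
  rw [val_cat h1, val_cat h1] at e2
  rw [hnb]
  have e5 : pre β (cat u a) (n + u.length) - pre β (cat v b) (n + v.length) =
      (β⁻¹) ^ n * ((β⁻¹) ^ v.length * val β (sh n b) - (β⁻¹) ^ u.length * val β (sh n a)) := by
    have : pre β (cat u a) (n + u.length) - pre β (cat v b) (n + v.length) =
        (β⁻¹) ^ (n + v.length) * val β (sh n b) - (β⁻¹) ^ (n + u.length) * val β (sh n a) := by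
      linarith
    rw [this]
    ring
  rw [e5, ← mul_assoc, ← mul_pow, mul_inv_cancel₀ hb0, one_pow, one_mul]
  linarith

open Polynomial in
/-- **main theorem** -/
theorem pisot_or_salem {β : ℝ} (h1 : 1 < β) (h2 : β < 2) (h : BlockProperty β) :
    IsIntegral ℤ β ∧ ∀ z : ℂ, aeval z (minpoly ℚ β) = 0 → z ≠ β → ‖z‖ ≤ 1 := by
  obtain ⟨Ω, P, u, v, hΩ, hcov, hP, hmain⟩ := h
  refine core h1 h2 (w := cat u fun _ => false) (n0 := u.length) fun e N he => ?_
  obtain ⟨w, a, hw, ha, hstart⟩ := exists_starts hΩ hcov
    (List.ofFn fun i : Fin N => sh u.length e i)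
  refine ⟨cat u a, returns_of_concat h1 h2 hΩ hP hmain hw ha, fun i hi => ?_⟩
  by_cases hiu : i < u.length
  · rw [← he i hiu]
    exact agree_cat u _ _ i hiu
  · unfold cat
    rw [dif_neg hiu, hstart (i - u.length) (by rw [List.length_ofFn]; omega)]
    rw [List.getElem_ofFn]
    unfold sh
    show e i = e (u.length + (i - u.length))
    congr 1
    omega

end Pool.Agent.FWP39
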